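import Pool.Agent.P.MP_80466e_an.Calc

/-!
The standard bubble in dimension six and the Brezis-Nirenberg type test function.
-/

set_option autoImplicit false

noncomputable section

namespace Pool.Agent.P.MP_80466e_an

open MeasureTheory Filter Topology Real

theorem D_scale {n : ℕ} {u : E n → ℝ} (hu : Differentiable ℝ u) (c : ℝ) (i : Fin n) (x : E n) :
    D i (fun y => u (c • y)) x = c * D i u (c • x) := by
  have h1 : HasFDerivAt (fun y : E n => c • y) (c • ContinuousLinearMap.id ℝ (E n)) x :=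
    (hasFDerivAt_id x).const_smul c
  have h2 := (hu (c • x)).hasFDerivAt.comp x h1
  simp only [D]
  rw [show (fun y => u (c • y)) = u ∘ fun y : E n => c • y from rfl, h2.fderiv]
  simp

theorem gsq_scale {n : ℕ} {u : E n → ℝ} (hu : Differentiable ℝ u) (c : ℝ) (x : E n) :
    gsq (fun y => u (c • y)) x = c ^ 2 * gsq u (c • x) := by
  simp only [gsq, D_scale hu, mul_pow, Finset.mul_sum]

theorem gsq_const_mul {n : ℕ} {u : E n → ℝ} (hu : Differentiable ℝ u) (c : ℝ) (x : E n) :
    gsq (fun y => c * u y) x = c ^ 2 * gsq u x := by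
  simp only [gsq, D_const_mul (hu x), mul_pow, Finset.mul_sum]

/-- The bubble. -/
def U (x : E 6) : ℝ := ((1 + ‖x‖ ^ 2) ^ 2)⁻¹

theorem U_pos (x : E 6) : 0 < U x := by unfold U; positivity

theorem U_smooth : ContDiff ℝ 2 U :=
  ((contDiff_const.add (contDiff_norm_sq ℝ)).pow 2).inv fun x => by positivity

theorem Lap_U (x : E 6) : Lap U x = -24 * U x ^ 2 := by
  have h1 : ∀ s : ℝ, 0 ≤ s → HasDerivAt (fun s : ℝ => ((1 + s) ^ 2)⁻¹) (-2 * ((1 + s) ^ 3)⁻¹) s := by
    intro s hs
    have h := (((hasDerivAt_id' s).const_add 1).fun_pow 2).fun_inv (by positivity)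
    refine h.congr_deriv ?_
    have : 1 + s ≠ 0 := by linarith
    simp
    field_simp
  have h2 : ∀ s : ℝ, 0 ≤ s →
      HasDerivAt (fun s : ℝ => -2 * ((1 + s) ^ 3)⁻¹) (6 * ((1 + s) ^ 4)⁻¹) s := by
    intro s hs
    have h := ((((hasDerivAt_id' s).const_add 1).fun_pow 3).fun_inv
      (by positivity)).const_mul (-2)
    refine h.congr_deriv ?_
    have : 1 + s ≠ 0 := by linarith
    simp
    field_simp
    ring
  have h := Lap_radial h1 h2 x
  have e : U = fun y : E 6 => (fun s : ℝ => ((1 + s) ^ 2)⁻¹) (‖y‖ ^ 2) := rfl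
  rw [e, h]
  have : 1 + ‖x‖ ^ 2 ≠ 0 := by positivity
  push_cast
  field_simp
  ring

theorem integrable_U2 : Integrable fun x => U x ^ 2 := by
  have h := integrable_rpow_neg_one_add_norm_sq (E := E 6) (μ := volume) (r := 8)
    (by simp; norm_num)
  refine h.congr (Eventually.of_forall fun x => ?_)
  have : (0 : ℝ) < 1 + ‖x‖ ^ 2 := by positivity
  simp only [U]
  rw [show (-(8 : ℝ) / 2) = -((4 : ℕ) : ℝ) by norm_num, rpow_neg this.le, rpow_natCast]
  field_simp

theorem U_le_one (x : E 6) : U x ≤ 1 := by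
  unfold U
  apply inv_le_one_of_one_le₀
  nlinarith [sq_nonneg ‖x‖, sq_nonneg (‖x‖ ^ 2)]

theorem integrable_U3 : Integrable fun x => U x ^ 3 := by
  refine integrable_U2.mono' (U_smooth.continuous.pow 3).aestronglyMeasurable
    (Eventually.of_forall fun x => ?_)
  have h1 := U_pos x
  have h2 := U_le_one x
  rw [Real.norm_of_nonneg (by positivity)]
  nlinarith [sq_nonneg (U x)]

theorem integral_U3 : ∫ x, U x ^ 3 = π ^ 3 / 60 := by
  have h := integral_fun_norm_addHaar (volume : Measure (E 6))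
    (fun r : ℝ => (((1 + r ^ 2) ^ 2)⁻¹) ^ 3)
  have hv : (volume : Measure (E 6)).real (Metric.ball 0 1) = π ^ 3 / 6 := by
    rw [Measure.real, InnerProductSpace.volume_ball_of_dim_even (k := 3) (by simp)]
    simp only [ENNReal.ofReal_one, one_pow, one_mul]
    rw [ENNReal.toReal_ofReal (by positivity)]
    norm_num [Nat.factorial]
  have hi : ∫ y in Set.Ioi (0 : ℝ), y ^ 5 * (((1 + y ^ 2) ^ 2)⁻¹) ^ 3 = 1 / 60 := by
    have h := integral_Ioi_of_hasDerivAt_of_nonneg' (a := 0) (l := 0)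
      (g := fun y : ℝ => -(1 / 6) * (1 + y ^ 2)⁻¹ ^ 3 + (1 / 4) * (1 + y ^ 2)⁻¹ ^ 4 -
        (1 / 10) * (1 + y ^ 2)⁻¹ ^ 5)
      (g' := fun y : ℝ => y ^ 5 * (((1 + y ^ 2) ^ 2)⁻¹) ^ 3) ?_ ?_ ?_
    · rw [h]; norm_num
    · intro y _
      have h0 : 1 + y ^ 2 ≠ 0 := by positivity
      have h1 : HasDerivAt (fun y : ℝ => (1 + y ^ 2)⁻¹) (-(2 * y) / (1 + y ^ 2) ^ 2) y := by
        have := (((hasDerivAt_id y).fun_pow 2).const_add 1).fun_inv (by simpa using h0)
        simpa using this
      refine ((((h1.fun_pow 3).const_mul (-(1 / 6))).fun_add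
        ((h1.fun_pow 4).const_mul (1 / 4))).fun_sub
          ((h1.fun_pow 5).const_mul (1 / 10))).congr_deriv ?_
      simp
      field_simp
      ring
    · intro y hy
      have : 0 < y := hy
      positivity
    · have h1 : Tendsto (fun y : ℝ => (1 + y ^ 2)⁻¹) atTop (𝓝 0) :=
        tendsto_inv_atTop_zero.comp (tendsto_atTop_add_const_left _ _ (tendsto_pow_atTop two_ne_zero))
      have := (((h1.pow 3).const_mul (-(1 / 6))).add ((h1.pow 4).const_mul (1 / 4))).sub
        ((h1.pow 5).const_mul (1 / 10))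
      simpa using this
  simp only [finrank_euclideanSpace, Fintype.card_fin, smul_eq_mul, nsmul_eq_mul] at h
  rw [hv, hi] at h
  simp only [U]
  rw [h]
  push_cast
  ring

theorem omega_six : omega 6 = 16 * π ^ 3 / 15 := by
  have h := Real.Gamma_nat_add_one_add_half 2
  have hs : 0 < √π := Real.sqrt_pos.2 pi_pos
  unfold omega
  rw [show (((6 : ℕ) : ℝ) + 1) / 2 = ((2 : ℕ) : ℝ) + 1 + 1 / 2 by norm_num, h,
    show ((2 : ℕ) : ℝ) + 1 + 1 / 2 = ((3 : ℕ) : ℝ) + 1 / 2 by norm_num, rpow_add pi_pos,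
    rpow_natCast, ← Real.sqrt_eq_rpow]
  norm_num [Nat.doubleFactorial]
  field_simp
  norm_num

theorem Ksq_pos : 0 < (Ksq 6)⁻¹ := by
  unfold Ksq
  rw [omega_six]
  have := pi_pos
  norm_num
  positivity

theorem Ksq_cube : ((Ksq 6)⁻¹ / 24) ^ 3 = π ^ 3 / 60 := by
  have hp := pi_pos
  have h : (omega 6 ^ (2 / ((6 : ℕ) : ℝ))) ^ 3 = omega 6 := by
    rw [← rpow_natCast, ← rpow_mul (by rw [omega_six]; positivity)]
    norm_num
  unfold Ksq
  rw [inv_div, div_pow, div_pow, mul_pow, h, omega_six]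
  norm_num
  ring

/-- The test function beating the Euclidean Sobolev constant. -/
theorem bn_test {κ : ℝ} (hκ : 0 < κ) :
    ∃ (v : E 6 → ℝ) (R τ : ℝ), ContDiff ℝ 1 v ∧ 0 < R ∧ (∀ y, v y ≠ 0 → ‖y‖ < R) ∧ 0 < τ ∧
      τ ^ 3 = ∫ x, |v x| ^ 3 ∧
      (∫ x, gsq v x) - κ / R ^ 2 * ∫ x, v x ^ 2 < (Ksq 6)⁻¹ * τ ^ 2 := by
  let χ : ContDiffBump (0 : E 6) := ⟨1 / 2, 1, by norm_num, by norm_num⟩
  have hχ : ContDiff ℝ 1 χ := χ.contDiff
  obtain ⟨C, hC⟩ := (continuous_gsq hχ).bounded_above_of_compact_support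
    (hasCompactSupport_gsq χ.hasCompactSupport)
  have hC0 : 0 ≤ C := (norm_nonneg _).trans (hC 0)
  let s : ℕ → Set (E 6) := fun m => {x | (m : ℝ) / 2 ≤ ‖x‖}
  have hsm : ∀ m, MeasurableSet (s m) := fun m =>
    (isClosed_le continuous_const continuous_norm).measurableSet
  have htail : Tendsto (fun m => ∫ x in s m, U x ^ 2) atTop (𝓝 0) := by
    have h := tendsto_setIntegral_of_antitone (μ := volume) (f := fun x => U x ^ 2) hsm
      (fun a b hab x hx => by
        have : (a : ℝ) ≤ b := by exact_mod_cast hab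
        simp only [s, Set.mem_ofPred_eq] at hx ⊢
        linarith) ⟨0, integrable_U2.integrableOn⟩
    have e : ⋂ m, s m = ∅ := by
      apply Set.eq_empty_of_forall_notMem
      intro x hx
      obtain ⟨m, hm⟩ := exists_nat_gt (2 * ‖x‖)
      have := Set.mem_iInter.1 hx m
      simp only [s, Set.mem_ofPred_eq] at this
      linarith
    simpa [e] using h
  have hN : 0 < ∫ x, U x ^ 2 :=
    integral_pos_of_integrable_nonneg_nonzero (x := 0) (U_smooth.continuous.pow 2) integrable_U2
      (fun x => sq_nonneg _) (pow_pos (U_pos 0) 2).ne'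
  have hB : 0 < π ^ 3 / 60 := by have := pi_pos; positivity
  have ev1 := htail.eventually (gt_mem_nhds (show 0 < κ * (∫ x, U x ^ 2) / (C + 96 + κ) by
    positivity))
  have ev2 := htail.eventually (gt_mem_nhds (show 0 < π ^ 3 / 60 / 4 by positivity))
  obtain ⟨m, h1, h2, hm⟩ := (ev1.and (ev2.and (eventually_ge_atTop 1))).exists
  set T := ∫ x in s m, U x ^ 2 with hT
  have hT0 : 0 ≤ T := integral_nonneg fun x => sq_nonneg _
  have hR1 : (1 : ℝ) ≤ m := by exact_mod_cast hm
  set R : ℝ := (m : ℝ) with hRdef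
  have hR : 0 < R := by linarith
  let c : E 6 → ℝ := fun y => χ (R⁻¹ • y)
  have hc : ContDiff ℝ 1 c := hχ.comp (contDiff_id.const_smul _)
  have nrm : ∀ y : E 6, ‖R⁻¹ • y‖ = ‖y‖ / R := by
    intro y
    rw [norm_smul, norm_inv, Real.norm_of_nonneg hR.le]
    ring
  have c0 : ∀ y, 0 ≤ c y := fun y => χ.nonneg
  have c1 : ∀ y, c y ≤ 1 := fun y => χ.le_one
  have cin : ∀ y, y ∉ s m → c y = 1 := by
    intro y hy
    apply χ.one_of_mem_closedBall
    rw [mem_closedBall_zero_iff, nrm, div_le_iff₀ hR]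
    simp only [s, Set.mem_ofPred_eq, not_le] at hy
    change ‖y‖ ≤ 1 / 2 * R
    linarith
  have cout : ∀ y, R ≤ ‖y‖ → c y = 0 := by
    intro y hy
    apply χ.zero_of_le_dist
    rw [dist_zero_right, nrm, le_div_iff₀ hR]
    change 1 * R ≤ ‖y‖
    linarith
  have cev : ∀ y, y ∉ Metric.closedBall (0 : E 6) R → c =ᶠ[𝓝 y] fun _ => 0 := by
    intro y hy
    filter_upwards [Metric.isClosed_closedBall.isOpen_compl.mem_nhds hy] with z hz
    apply cout
    simp only [Set.mem_compl_iff, mem_closedBall_zero_iff, not_le] at hz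
    exact hz.le
  have ind : ∫ x, (s m).indicator (fun x => U x ^ 2) x = T := integral_indicator (hsm m)
  have iind : Integrable ((s m).indicator fun x => U x ^ 2) := integrable_U2.indicator (hsm m)
  have hU1 : ContDiff ℝ 1 U := U_smooth.of_le (by norm_num)
  have vcs : ∀ {F : E 6 → ℝ}, Continuous F → (∀ y, R ≤ ‖y‖ → F y = 0) → Integrable F := by
    intro F hF h
    exact hF.integrable_of_hasCompactSupport
      (HasCompactSupport.intro (isCompact_closedBall 0 R) fun y hy => h y (by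
        simp only [mem_closedBall_zero_iff, not_le] at hy
        exact hy.le))
  -- the gradient term
  have hA : ∫ x, gsq (fun y => U y * c y) x ≤ C / R ^ 2 * T + 24 * (π ^ 3 / 60) := by
    rw [ground_state U_smooth hc (isCompact_closedBall 0 R) (Or.inr cev), ← ind, ← integral_U3,
      ← integral_const_mul, ← integral_const_mul]
    apply add_le_add
    · apply integral_mono_of_nonneg
        (Eventually.of_forall fun x => mul_nonneg (sq_nonneg _) (gsq_nonneg _ _))
        (iind.const_mul _)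
      refine Eventually.of_forall fun x => ?_
      by_cases hx : x ∈ s m
      · simp only [Set.indicator_of_mem hx]
        rw [gsq_scale (hχ.differentiable one_ne_zero), mul_comm]
        apply mul_le_mul_of_nonneg_right _ (sq_nonneg _)
        have := (le_abs_self _).trans (hC (R⁻¹ • x))
        rw [inv_pow, div_eq_mul_inv, mul_comm C]
        exact mul_le_mul_of_nonneg_left this (by positivity)
      · simp only [Set.indicator_of_notMem hx, mul_zero]
        have : c =ᶠ[𝓝 x] fun _ => 1 := by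
          filter_upwards [(isClosed_le continuous_const continuous_norm).isOpen_compl.mem_nhds hx]
            with z hz using cin z hz
        rw [gsq_congr this]
        simp [gsq, D]
    · apply integral_mono_of_nonneg _ (integrable_U3.const_mul _)
      · refine Eventually.of_forall fun x => ?_
        simp only [Lap_U]
        have h3 : 0 < U x ^ 3 := pow_pos (U_pos x) 3
        have h4 : c x ^ 2 ≤ 1 := pow_le_one₀ (c0 x) (c1 x)
        nlinarith
      · refine Eventually.of_forall fun x => ?_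
        simp only [Lap_U, Pi.zero_apply]
        have h3 : 0 < U x ^ 3 := pow_pos (U_pos x) 3
        nlinarith [sq_nonneg (c x)]
  have i3 : Integrable fun x => |U x * c x| ^ 3 :=
    vcs ((U_smooth.continuous.mul hc.continuous).abs.pow 3) fun y hy => by simp [cout y hy]
  have i2 : Integrable fun x => (U x * c x) ^ 2 :=
    vcs ((U_smooth.continuous.mul hc.continuous).pow 2) fun y hy => by simp [cout y hy]
  have hup : ∫ x, |U x * c x| ^ 3 ≤ π ^ 3 / 60 := by
    rw [← integral_U3]
    apply integral_mono i3 integrable_U3 fun x => ?_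
    have h1 := U_pos x
    rw [abs_of_nonneg (mul_nonneg h1.le (c0 x))]
    exact pow_le_pow_left₀ (mul_nonneg h1.le (c0 x)) (mul_le_of_le_one_right h1.le (c1 x)) 3
  have hlow : π ^ 3 / 60 ≤ (∫ x, |U x * c x| ^ 3) + 4 / R ^ 2 * T := by
    rw [← integral_U3, ← ind, ← integral_const_mul, ← integral_add i3 (iind.const_mul _)]
    apply integral_mono integrable_U3 (i3.add (iind.const_mul _)) fun x => ?_
    by_cases hx : x ∈ s m
    · simp only [Pi.add_apply, Set.indicator_of_mem hx]
      have h1 : U x ≤ 4 / R ^ 2 := by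
        simp only [s, Set.mem_ofPred_eq] at hx
        rw [U, le_div_iff₀ (by positivity), inv_mul_le_iff₀ (by positivity)]
        nlinarith [sq_nonneg ‖x‖, sq_nonneg (‖x‖ ^ 2)]
      have h2 : U x ^ 3 ≤ 4 / R ^ 2 * U x ^ 2 := by
        rw [pow_succ']
        exact mul_le_mul_of_nonneg_right h1 (sq_nonneg _)
      have h3 : 0 ≤ |U x * c x| ^ 3 := by positivity
      linarith
    · simp [Set.indicator_of_notMem hx, cin x hx, abs_of_pos (U_pos x)]
  have hN2 : ∫ x, U x ^ 2 ≤ (∫ x, (U x * c x) ^ 2) + T := by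
    rw [← ind, ← integral_add i2 iind]
    apply integral_mono integrable_U2 (i2.add iind) fun x => ?_
    by_cases hx : x ∈ s m
    · simp only [Pi.add_apply, Set.indicator_of_mem hx]
      nlinarith [sq_nonneg (U x * c x)]
    · simp [Set.indicator_of_notMem hx, cin x hx]
  have hR2 : 1 ≤ R ^ 2 := by nlinarith
  have hpos : 0 < ∫ x, |U x * c x| ^ 3 := by
    have : 4 / R ^ 2 * T ≤ 4 * T :=
      mul_le_mul_of_nonneg_right (div_le_self (by norm_num) hR2) hT0
    linarith
  set W := ∫ x, |U x * c x| ^ 3 with hW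
  have hτ : (W ^ ((3 : ℕ) : ℝ)⁻¹) ^ 3 = W := rpow_inv_natCast_pow hpos.le (by norm_num)
  have hτ0 : 0 < W ^ ((3 : ℕ) : ℝ)⁻¹ := rpow_pos_of_pos hpos _
  set τ := W ^ ((3 : ℕ) : ℝ)⁻¹
  refine ⟨fun y => U y * c y, R, τ, hU1.mul hc, hR, ?_, hτ0, hτ, ?_⟩
  · intro y hy
    by_contra h
    exact hy (by simp [cout y (not_lt.1 h)])
  · have hβ : τ ≤ (Ksq 6)⁻¹ / 24 := by
      apply le_of_pow_le_pow_left₀ (n := 3) (by norm_num) (by have := Ksq_pos; positivity)
      rw [Ksq_cube, hτ]
      exact hup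
    have h5 : 24 * W ≤ (Ksq 6)⁻¹ * τ ^ 2 := by
      rw [← hτ]
      nlinarith [sq_nonneg τ]
    have h6 : (C + 96 + κ) * T < κ * ∫ x, U x ^ 2 := by
      rw [lt_div_iff₀ (by positivity)] at h1
      linarith
    have h7 : C / R ^ 2 * T + 96 / R ^ 2 * T < κ / R ^ 2 * ∫ x, (U x * c x) ^ 2 := by
      have : (C + 96) * T < κ * ∫ x, (U x * c x) ^ 2 := by nlinarith
      calc C / R ^ 2 * T + 96 / R ^ 2 * T = (C + 96) * T / R ^ 2 := by ring
        _ < (κ * ∫ x, (U x * c x) ^ 2) / R ^ 2 := div_lt_div_of_pos_right this (by positivity)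
        _ = _ := by ring
    have h8 : 96 / R ^ 2 * T = 24 * (4 / R ^ 2 * T) := by ring
    linarith

end Pool.Agent.P.MP_80466e_an
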