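import Pool.Agent.P.MP_80466e_an.Defs

/-!
Calculus identities: partial derivatives, the ground state identity, radial Laplacians.
-/

set_option autoImplicit false

noncomputable section

namespace Pool.Agent.P.MP_80466e_an

open MeasureTheory

variable {n : ℕ}

/-- The Euclidean Laplacian. -/
def Lap (u : E n → ℝ) (x : E n) : ℝ := ∑ i, D i (D i u) x

/-- The squared Euclidean gradient. -/
def gsq (u : E n → ℝ) (x : E n) : ℝ := ∑ i, D i u x ^ 2

theorem gsq_nonneg (u : E n → ℝ) (x : E n) : 0 ≤ gsq u x :=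
  Finset.sum_nonneg fun _ _ => sq_nonneg _

theorem contDiff_D {m k : WithTop ℕ∞} {u : E n → ℝ} (hu : ContDiff ℝ k u) (h : m + 1 ≤ k)
    (i : Fin n) : ContDiff ℝ m (D i u) :=
  (hu.fderiv_right h).clm_apply contDiff_const

theorem continuous_D {u : E n → ℝ} (hu : ContDiff ℝ 1 u) (i : Fin n) : Continuous (D i u) :=
  (contDiff_D (m := 0) hu (by simp) i).continuous

theorem continuous_gsq {u : E n → ℝ} (hu : ContDiff ℝ 1 u) : Continuous (gsq u) :=
  continuous_finsetSum _ fun i _ => (continuous_D hu i).pow 2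

theorem continuous_Lap {u : E n → ℝ} (hu : ContDiff ℝ 2 u) : Continuous (Lap u) :=
  continuous_finsetSum _ fun i _ => continuous_D (contDiff_D (m := 1) hu (by norm_num) i) i

theorem D_congr {u v : E n → ℝ} {x : E n} (h : u =ᶠ[nhds x] v) (i : Fin n) : D i u x = D i v x := by
  simp only [D, h.fderiv_eq]

theorem D_congr_ev {u v : E n → ℝ} {x : E n} (h : u =ᶠ[nhds x] v) (i : Fin n) :
    D i u =ᶠ[nhds x] D i v :=
  h.eventuallyEq_nhds.mono fun _ hy => D_congr hy i

theorem Lap_congr {u v : E n → ℝ} {x : E n} (h : u =ᶠ[nhds x] v) : Lap u x = Lap v x :=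
  Finset.sum_congr rfl fun i _ => D_congr (D_congr_ev h i) i

theorem gsq_congr {u v : E n → ℝ} {x : E n} (h : u =ᶠ[nhds x] v) : gsq u x = gsq v x :=
  Finset.sum_congr rfl fun i _ => by rw [D_congr h i]

theorem D_zero_of_notMem {u : E n → ℝ} {x : E n} (h : x ∉ tsupport u) (i : Fin n) :
    D i u x = 0 := by
  have : u =ᶠ[nhds x] fun _ => 0 := notMem_tsupport_iff_eventuallyEq.1 h
  rw [D_congr this i]
  simp [D]

theorem hasCompactSupport_D {u : E n → ℝ} (hu : HasCompactSupport u) (i : Fin n) :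
    HasCompactSupport (D i u) :=
  HasCompactSupport.intro hu fun _ hx => D_zero_of_notMem hx i

theorem gsq_zero_of_notMem {u : E n → ℝ} {x : E n} (h : x ∉ tsupport u) : gsq u x = 0 := by
  simp [gsq, D_zero_of_notMem h]

theorem hasCompactSupport_gsq {u : E n → ℝ} (hu : HasCompactSupport u) :
    HasCompactSupport (gsq u) :=
  HasCompactSupport.intro hu fun _ hx => gsq_zero_of_notMem hx

theorem D_mul {u v : E n → ℝ} {x : E n} (hu : DifferentiableAt ℝ u x) (hv : DifferentiableAt ℝ v x)
    (i : Fin n) : D i (fun y => u y * v y) x = u x * D i v x + D i u x * v x := by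
  simp only [D]
  rw [fderiv_fun_mul hu hv]
  simp
  ring

theorem D_add {u v : E n → ℝ} {x : E n} (hu : DifferentiableAt ℝ u x) (hv : DifferentiableAt ℝ v x)
    (i : Fin n) : D i (fun y => u y + v y) x = D i u x + D i v x := by
  simp only [D]
  rw [fderiv_fun_add hu hv]
  simp

theorem D_const_mul {u : E n → ℝ} {x : E n} (hu : DifferentiableAt ℝ u x) (c : ℝ)
    (i : Fin n) : D i (fun y => c * u y) x = c * D i u x := by
  rw [D_mul (differentiableAt_const c) hu]
  simp [D]

theorem integral_D_eq_zero {u : E n → ℝ} (hu : ContDiff ℝ 1 u) (hc : HasCompactSupport u)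
    (i : Fin n) : ∫ x, D i u x = 0 := by
  have h := integral_mul_fderiv_eq_neg_fderiv_mul_of_integrable (μ := (volume : Measure (E n)))
    (f := fun _ => (1 : ℝ)) (g := u) (v := EuclideanSpace.single i 1) (by simp)
    (by
      simp only [one_mul]
      exact (continuous_D hu i).integrable_of_hasCompactSupport (hasCompactSupport_D hc i))
    (by simpa using hu.continuous.integrable_of_hasCompactSupport hc)
    (fun _ _ => differentiableAt_const _)
    (fun x _ => hu.differentiable (by norm_num) x)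
  simpa [D] using h

/-- The ground state identity. -/
theorem ground_state {θ w : E n → ℝ} (hθ : ContDiff ℝ 2 θ) (hw : ContDiff ℝ 1 w)
    {K : Set (E n)} (hK : IsCompact K)
    (hc : (∀ x, x ∉ K → θ =ᶠ[nhds x] fun _ => 0) ∨ (∀ x, x ∉ K → w =ᶠ[nhds x] fun _ => 0)) :
    ∫ x, gsq (fun y => θ y * w y) x =
      (∫ x, θ x ^ 2 * gsq w x) + ∫ x, -(θ x * Lap θ x) * w x ^ 2 := by
  have hθ1 : ContDiff ℝ 1 θ := hθ.of_le (by norm_num)
  have hDθ : ∀ i, ContDiff ℝ 1 (D i θ) := fun i => contDiff_D hθ (by norm_num) i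
  have dθ := hθ1.differentiable (by norm_num)
  have dw := hw.differentiable (by norm_num)
  have dD : ∀ i, Differentiable ℝ (D i θ) := fun i => (hDθ i).differentiable (by norm_num)
  let X : Fin n → E n → ℝ := fun i y => θ y * D i θ y * (w y * w y)
  have hX : ∀ i, ContDiff ℝ 1 (X i) := fun i => (hθ1.mul (hDθ i)).mul (hw.mul hw)
  have z : ∀ x, x ∉ K → θ x = 0 ∨ (w x = 0 ∧ gsq w x = 0) := by
    intro x hx
    rcases hc with hc | hc
    · exact Or.inl (hc x hx).self_of_nhds
    · refine Or.inr ⟨(hc x hx).self_of_nhds, ?_⟩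
      rw [gsq_congr (hc x hx)]
      simp [gsq, D]
  have hXc : ∀ i, HasCompactSupport (X i) := fun i =>
    HasCompactSupport.intro hK fun x hx => by
      rcases z x hx with h | h
      · simp [X, h]
      · simp [X, h.1]
  have pt : ∀ x, gsq (fun y => θ y * w y) x =
      θ x ^ 2 * gsq w x + -(θ x * Lap θ x) * w x ^ 2 + ∑ i, D i (X i) x := by
    intro x
    simp only [gsq, Lap, Finset.mul_sum, Finset.sum_mul, ← Finset.sum_neg_distrib,
      ← Finset.sum_add_distrib]
    refine Finset.sum_congr rfl fun i _ => ?_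
    simp only [X]
    rw [D_mul (dθ x) (dw x), D_mul ((dθ x).fun_mul (dD i x)) ((dw x).fun_mul (dw x)),
      D_mul (dw x) (dw x), D_mul (dθ x) (dD i x)]
    ring
  have i1 : Integrable (fun x => θ x ^ 2 * gsq w x) :=
    ((hθ.continuous.pow 2).mul (continuous_gsq hw)).integrable_of_hasCompactSupport
      (HasCompactSupport.intro hK fun x hx => by
        rcases z x hx with h | h
        · simp [h]
        · simp [h.2])
  have i2 : Integrable (fun x => -(θ x * Lap θ x) * w x ^ 2) :=
    ((hθ.continuous.mul (continuous_Lap hθ)).neg.mul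
      (hw.continuous.pow 2)).integrable_of_hasCompactSupport
      (HasCompactSupport.intro hK fun x hx => by
        rcases z x hx with h | h
        · simp [h]
        · simp [h.1])
  have i3 : ∀ i, Integrable (D i (X i)) := fun i =>
    (continuous_D (hX i) i).integrable_of_hasCompactSupport (hasCompactSupport_D (hXc i) i)
  simp_rw [pt]
  have i12 : Integrable (fun x => θ x ^ 2 * gsq w x + -(θ x * Lap θ x) * w x ^ 2) := i1.add i2
  rw [integral_add i12 (integrable_finsetSum _ fun i _ => i3 i), integral_add i1 i2,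
    integral_finsetSum _ fun i _ => i3 i]
  simp [integral_D_eq_zero (hX _) (hXc _)]

theorem D_normSq (i : Fin n) (x : E n) : D i (fun y : E n => ‖y‖ ^ 2) x = 2 * x i := by
  simp only [D]
  rw [(hasStrictFDerivAt_norm_sq x).hasFDerivAt.fderiv]
  simp [EuclideanSpace.inner_single_right]

theorem D_radial {g g' : ℝ → ℝ} (hg : ∀ s, 0 ≤ s → HasDerivAt g (g' s) s) (i : Fin n) (x : E n) :
    D i (fun y : E n => g (‖y‖ ^ 2)) x = g' (‖x‖ ^ 2) * (2 * x i) := by
  have h1 := (hasStrictFDerivAt_norm_sq x).hasFDerivAt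
  have h2 := (hg _ (sq_nonneg ‖x‖)).comp_hasFDerivAt x h1
  simp only [D]
  rw [show (fun y : E n => g (‖y‖ ^ 2)) = g ∘ fun y : E n => ‖y‖ ^ 2 from rfl, h2.fderiv]
  simp [EuclideanSpace.inner_single_right]

theorem Lap_radial {g g' g'' : ℝ → ℝ} (hg : ∀ s, 0 ≤ s → HasDerivAt g (g' s) s)
    (hg' : ∀ s, 0 ≤ s → HasDerivAt g' (g'' s) s) (x : E n) :
    Lap (fun y : E n => g (‖y‖ ^ 2)) x =
      4 * ‖x‖ ^ 2 * g'' (‖x‖ ^ 2) + 2 * n * g' (‖x‖ ^ 2) := by
  have h : ∀ i, D i (D i (fun y : E n => g (‖y‖ ^ 2))) x =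
      2 * g' (‖x‖ ^ 2) + 4 * g'' (‖x‖ ^ 2) * x i ^ 2 := by
    intro i
    have e : D i (fun y : E n => g (‖y‖ ^ 2)) = fun y => g' (‖y‖ ^ 2) * (2 * y i) :=
      funext fun y => D_radial hg i y
    have d1 : DifferentiableAt ℝ (fun y : E n => g' (‖y‖ ^ 2)) x :=
      ((hg' _ (sq_nonneg ‖x‖)).comp_hasFDerivAt x
        (hasStrictFDerivAt_norm_sq x).hasFDerivAt).differentiableAt
    have d2 : HasFDerivAt (fun y : E n => y i) (EuclideanSpace.proj i : E n →L[ℝ] ℝ) x :=
      (EuclideanSpace.proj i : E n →L[ℝ] ℝ).hasFDerivAt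
    rw [e, D_mul d1 (d2.differentiableAt.const_mul 2), D_radial hg',
      D_const_mul d2.differentiableAt]
    have : D i (fun y : E n => y i) x = 1 := by
      simp only [D]
      rw [d2.fderiv]
      simp
    rw [this]
    ring
  simp only [Lap, h, Finset.sum_add_distrib, Finset.sum_const, Finset.card_univ, Fintype.card_fin,
    ← Finset.mul_sum]
  rw [EuclideanSpace.real_norm_sq_eq]
  simp
  ring

end Pool.Agent.P.MP_80466e_an
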