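import Mathlib

/-!
Critical functions on a conformally flat torus `(ℝⁿ/ℤⁿ, g = φ δ)`.
Functions on the torus are `ℤⁿ`-periodic functions on `ℝⁿ`.
-/

set_option autoImplicit false

noncomputable section

namespace Pool.Agent.P.MP_80466e_an

open MeasureTheory

/-- Euclidean `n`-space. -/
abbrev E (n : ℕ) : Type := EuclideanSpace ℝ (Fin n)

variable {n : ℕ}

/-- `w` is `ℤⁿ`-periodic, that is, a function on the torus `ℝⁿ/ℤⁿ`. -/
def Per (w : E n → ℝ) : Prop := ∀ (x : E n) (i : Fin n), w (x + EuclideanSpace.single i 1) = w x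

/-- The unit cell `[-1/2, 1/2)ⁿ`, a fundamental domain of the torus. -/
def cell (n : ℕ) : Set (E n) := {x | ∀ i, -(1 / 2) ≤ x i ∧ x i < 1 / 2}

/-- The partial derivative `∂_i u`. -/
def D (i : Fin n) (u : E n → ℝ) (x : E n) : ℝ := fderiv ℝ u x (EuclideanSpace.single i 1)

/-- `∫_M F dv_g` for the metric `g = φ δ`, whose volume element is `φ^(n/2) dx`. -/
def intM (φ F : E n → ℝ) : ℝ := ∫ x in cell n, F x * φ x ^ ((n : ℝ) / 2)

/-- `w` lies in the Sobolev space `H₁²` of the torus and has weak partial derivatives `G i`: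
all are periodic and locally `L²`, and `G i` is the distributional derivative `∂_i w`. -/
structure H1 (w : E n → ℝ) (G : Fin n → E n → ℝ) : Prop where
  per_w : Per w
  per_G : ∀ i, Per (G i)
  L2_w : ∀ K, IsCompact K → MemLp w 2 (volume.restrict K)
  L2_G : ∀ i K, IsCompact K → MemLp (G i) 2 (volume.restrict K)
  weak : ∀ η : E n → ℝ, ContDiff ℝ (⊤ : ℕ∞) η → HasCompactSupport η →
    ∀ i, ∫ x, w x * D i η x = -∫ x, G i x * η x

/-- `|∇w|_g²` for `g = φ δ`, where `G` is the coordinate gradient of `w`. -/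
def gradSq (φ : E n → ℝ) (G : Fin n → E n → ℝ) (x : E n) : ℝ := (∑ i, G i x ^ 2) / φ x

/-- `I_h(w) = ∫ |∇w|_g² dv_g + ∫ h w² dv_g`. -/
def energy (φ h w : E n → ℝ) (G : Fin n → E n → ℝ) : ℝ :=
  intM φ (gradSq φ G) + intM φ (fun x => h x * w x ^ 2)

/-- `λ_{h,f,g}`, the infimum of `I_h` over `w ∈ H₁²` with `∫ f |w|^(2*) dv_g = 1`. -/
def lam (φ h f : E n → ℝ) : EReal :=
  sInf {t : EReal | ∃ w G, H1 w G ∧
    intM φ (fun x => f x * |w x| ^ (2 * (n : ℝ) / ((n : ℝ) - 2))) = 1 ∧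
    t = (energy φ h w G : ℝ)}

/-- The volume `ω_n` of the unit `n`-sphere. -/
def omega (n : ℕ) : ℝ := 2 * Real.pi ^ (((n : ℝ) + 1) / 2) / Real.Gamma (((n : ℝ) + 1) / 2)

/-- `K_n² = 4 / (n (n - 2) ω_n^(2/n))`. -/
def Ksq (n : ℕ) : ℝ := 4 / ((n : ℝ) * ((n : ℝ) - 2) * omega n ^ (2 / (n : ℝ)))

/-- `Λ_f = K_n⁻² (sup f)^(-(n-2)/n)`. -/
def Lam (f : E n → ℝ) : ℝ := (Ksq n)⁻¹ * (⨆ x, f x) ^ (-((n : ℝ) - 2) / (n : ℝ))

/-- `Δ_g + h` is coercive on `H₁²`. -/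
def Coercive (φ h : E n → ℝ) : Prop :=
  ∃ C : ℝ, 0 < C ∧ ∀ w G, H1 w G →
    C * (intM φ (gradSq φ G) + intM φ (fun x => w x ^ 2)) ≤ energy φ h w G

/-- `h` is weakly critical for `f` and `g = φ δ`. -/
def WeaklyCritical (φ f h : E n → ℝ) : Prop := lam φ h f = (Lam f : ℝ)

/-- `h` is subcritical for `f` and `g = φ δ`. -/
def Subcritical (φ f h : E n → ℝ) : Prop := lam φ h f < (Lam f : ℝ)

/-- `h` is critical for `f` and `g = φ δ`. -/
def Critical (φ f h : E n → ℝ) : Prop :=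
  WeaklyCritical φ f h ∧ ∀ k : E n → ℝ, Continuous k → Per k → (∀ x, k x ≤ h x) → k ≠ h →
    Coercive φ k → Subcritical φ f k

end Pool.Agent.P.MP_80466e_an
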