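import Pool.Agent.P.MP_80466e_an.Calc

/-!
Mollification of functions with weak derivatives.
-/

set_option autoImplicit false

noncomputable section

namespace Pool.Agent.P.MP_80466e_an

open MeasureTheory Filter Topology

variable {n : ℕ}

/-- The bump of outer radius `1 / (m + 1)`. -/
def bump (n m : ℕ) : ContDiffBump (0 : E n) :=
  ⟨1 / (2 * ((m : ℝ) + 1)), 1 / ((m : ℝ) + 1), by positivity, by
    apply one_div_lt_one_div_of_lt <;> [positivity; linarith [(Nat.cast_nonneg m : (0 : ℝ) ≤ m)]]⟩

/-- The normalised bump. -/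
def rho (n m : ℕ) : E n → ℝ := (bump n m).normed volume

/-- The mollification of `g`. -/
def mol (m : ℕ) (g : E n → ℝ) : E n → ℝ :=
  convolution (rho n m) g (ContinuousLinearMap.lsmul ℝ ℝ) volume

theorem rOut_tendsto : Tendsto (fun m => (bump n m).rOut) atTop (𝓝 0) :=
  tendsto_one_div_add_atTop_nhds_zero_nat

theorem rho_smooth (m : ℕ) : ContDiff ℝ (⊤ : ℕ∞) (rho n m) := (bump n m).contDiff_normed

theorem rho_cs (m : ℕ) : HasCompactSupport (rho n m) := (bump n m).hasCompactSupport_normed

theorem rho_nonneg (m : ℕ) (x : E n) : 0 ≤ rho n m x := (bump n m).nonneg_normed x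

theorem rho_integral (m : ℕ) : ∫ x, rho n m x = 1 := (bump n m).integral_normed

theorem rho_integrable (m : ℕ) : Integrable (rho n m) := (bump n m).integrable_normed

theorem rho_zero (m : ℕ) {x : E n} (hx : 1 ≤ ‖x‖) : rho n m x = 0 := by
  by_contra h
  have : x ∈ Function.support (rho n m) := h
  rw [rho, (bump n m).support_normed_eq, mem_ball_zero_iff] at this
  have h2 : (bump n m).rOut ≤ 1 := by
    change 1 / ((m : ℝ) + 1) ≤ 1
    rw [div_le_one (by positivity)]
    linarith [(Nat.cast_nonneg m : (0 : ℝ) ≤ m)]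
  linarith

theorem mol_eq (m : ℕ) (g : E n → ℝ) (x : E n) : mol m g x = ∫ t, rho n m t * g (x - t) := rfl

theorem mol_smooth (m : ℕ) {g : E n → ℝ} (hg : LocallyIntegrable g) :
    ContDiff ℝ (⊤ : ℕ∞) (mol m g) :=
  (rho_cs m).contDiff_convolution_left _ (rho_smooth m) hg

theorem mol_ae {g : E n → ℝ} (hg : LocallyIntegrable g) :
    ∀ᵐ x, Tendsto (fun m => mol m g x) atTop (𝓝 (g x)) :=
  ContDiffBump.ae_convolution_tendsto_right_of_locallyIntegrable (K := 2) rOut_tendsto
    (Eventually.of_forall fun m => by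
      change 1 / ((m : ℝ) + 1) ≤ 2 * (1 / (2 * ((m : ℝ) + 1)))
      apply le_of_eq
      field_simp) hg

theorem mol_integrable (m : ℕ) {g : E n → ℝ} (hg : LocallyIntegrable g) (x : E n) :
    Integrable (fun t => rho n m t * g (x - t)) :=
  (rho_cs m).convolutionExists_left (ContinuousLinearMap.lsmul ℝ ℝ) (rho_smooth m).continuous hg x

theorem mol_sq_le (m : ℕ) {g : E n → ℝ} (hg : LocallyIntegrable g)
    (hg2 : LocallyIntegrable (fun x => g x ^ 2)) (x : E n) :
    mol m g x ^ 2 ≤ mol m (fun x => g x ^ 2) x := by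
  have i1 := mol_integrable m hg x
  have i2 := mol_integrable m hg2 x
  have i0 := rho_integrable (n := n) m
  set a := mol m g x with ha
  have h : 0 ≤ ∫ t, rho n m t * (g (x - t) - a) ^ 2 :=
    integral_nonneg fun t => mul_nonneg (rho_nonneg m t) (sq_nonneg _)
  have e : (fun t => rho n m t * (g (x - t) - a) ^ 2) =
      fun t => (rho n m t * g (x - t) ^ 2 - 2 * a * (rho n m t * g (x - t))) + a ^ 2 * rho n m t := by
    funext t; ring
  have i3 : Integrable (fun t => rho n m t * g (x - t) ^ 2 - 2 * a * (rho n m t * g (x - t))) :=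
    i2.sub (i1.const_mul _)
  rw [e, integral_add i3 (i0.const_mul _), integral_sub i2 (i1.const_mul _), integral_const_mul,
    integral_const_mul, rho_integral, ← mol_eq, ← ha] at h
  rw [mol_eq]
  nlinarith

theorem D_mol (m : ℕ) {w : E n → ℝ} {G : Fin n → E n → ℝ} (hw : LocallyIntegrable w)
    (weak : ∀ η : E n → ℝ, ContDiff ℝ (⊤ : ℕ∞) η → HasCompactSupport η →
      ∀ i, ∫ x, w x * D i η x = -∫ x, G i x * η x) (i : Fin n) (x : E n) :
    D i (mol m w) x = mol m (G i) x := by
  have hρ1 : ContDiff ℝ 1 (rho n m) := (rho_smooth m).of_le (by exact_mod_cast le_top)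
  have e : mol m w = convolution w (rho n m) (ContinuousLinearMap.lsmul ℝ ℝ).flip volume := by
    rw [convolution_flip]; rfl
  have h := (rho_cs m).hasFDerivAt_convolution_right (ContinuousLinearMap.lsmul ℝ ℝ).flip hw hρ1 x
  have h1 : D i (mol m w) x = ∫ t, w t * D i (rho n m) (x - t) := by
    simp only [D]
    rw [e, h.fderiv, convolution_precompR_apply _ hw ((rho_cs m).fderiv ℝ)
      (hρ1.continuous_fderiv one_ne_zero), convolution_def]
    simp [mul_comm]
  let η : E n → ℝ := fun y => rho n m (x - y)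
  have hη : ContDiff ℝ (⊤ : ℕ∞) η := (rho_smooth m).comp (contDiff_const.sub contDiff_id)
  have hηc : HasCompactSupport η := (rho_cs m).comp_homeomorph (Homeomorph.subLeft x)
  have hD : ∀ y, D i η y = -D i (rho n m) (x - y) := by
    intro y
    have h1 : HasFDerivAt (fun y : E n => x - y) (-ContinuousLinearMap.id ℝ (E n)) y := by
      simpa using (hasFDerivAt_id y).const_sub x
    have h2 := ((hρ1.differentiable one_ne_zero (x - y)).hasFDerivAt).comp y h1
    simp only [D]
    rw [show η = rho n m ∘ fun y : E n => x - y from rfl, h2.fderiv]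
    simp
  have h2 := weak η hη hηc i
  simp only [hD, mul_neg, integral_neg, neg_inj] at h2
  rw [h1, h2, mol, convolution_lsmul_swap]
  simp [η, mul_comm]

/-- Testing a mollification against a continuous compactly supported weight. -/
theorem mol_weak {a h : E n → ℝ} (ha : Continuous a) (hac : HasCompactSupport a)
    (hh : LocallyIntegrable h) :
    Tendsto (fun m => ∫ x, a x * mol m h x) atTop (𝓝 (∫ x, a x * h x)) := by
  obtain ⟨R, hR⟩ := hac.isCompact.isBounded.subset_closedBall 0
  let K : Set (E n) := Metric.closedBall 0 (R + 1)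
  let hK : E n → ℝ := K.indicator h
  have iK : Integrable hK :=
    (integrable_indicator_iff measurableSet_closedBall).2
      (hh.integrableOn_isCompact (isCompact_closedBall _ _))
  have ha0 : ∀ x, R < ‖x‖ → a x = 0 := by
    intro x hx
    apply image_eq_zero_of_notMem_tsupport
    intro h
    have := hR h
    rw [mem_closedBall_zero_iff] at this
    linarith
  obtain ⟨M, hM⟩ := ha.bounded_above_of_compact_support hac
  let Ψ : E n → ℝ := fun s => ∫ y, a (y - s) * hK y
  have hΨ : Continuous Ψ := by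
    apply continuous_of_dominated (bound := fun y => M * ‖hK y‖)
    · intro s
      exact ((ha.comp (continuous_id.sub continuous_const)).aestronglyMeasurable).mul
        iK.aestronglyMeasurable
    · intro s
      refine Eventually.of_forall fun y => ?_
      rw [norm_mul]
      exact mul_le_mul_of_nonneg_right (hM _) (norm_nonneg _)
    · exact iK.norm.const_mul M
    · refine Eventually.of_forall fun y => ?_
      exact (ha.comp (continuous_const.sub continuous_id)).mul continuous_const
  have key : ∀ m, ∫ x, a x * mol m h x = mol m Ψ 0 := by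
    intro m
    have e1 : ∀ x, a x * mol m h x = ∫ t, a x * (rho n m t * hK (x - t)) := by
      intro x
      rw [mol_eq, ← integral_const_mul]
      congr 1
      funext t
      by_cases hx : R < ‖x‖
      · simp [ha0 x hx]
      by_cases ht : 1 ≤ ‖t‖
      · simp [rho_zero m ht]
      have : x - t ∈ K := by
        rw [mem_closedBall_zero_iff]
        have := norm_sub_le x t
        linarith
      simp [hK, this]
    have i1 : Integrable (fun p : E n × E n => rho n m p.2 * hK (p.1 - p.2))
        (volume.prod volume) :=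
      (rho_integrable m).convolution_integrand (ContinuousLinearMap.mul ℝ ℝ) iK
    have i2 : Integrable (Function.uncurry fun x t : E n => a x * (rho n m t * hK (x - t)))
        (volume.prod volume) :=
      i1.bdd_mul (c := M) (ha.comp continuous_fst).aestronglyMeasurable
        (Eventually.of_forall fun p => hM p.1)
    simp_rw [e1]
    rw [integral_integral_swap i2, mol_eq]
    congr 1
    funext t
    simp only [Ψ, zero_sub, sub_neg_eq_add]
    rw [← integral_const_mul, ← integral_add_right_eq_self _ t]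
    congr 1
    funext y
    simp only [add_sub_cancel_right]
    ring
  have e0 : Ψ 0 = ∫ x, a x * h x := by
    simp only [Ψ, sub_zero]
    congr 1
    funext x
    by_cases hx : R < ‖x‖
    · simp [ha0 x hx]
    have : x ∈ K := by
      rw [mem_closedBall_zero_iff]
      linarith
    simp [hK, this]
  simp_rw [key]
  rw [← e0]
  exact ContDiffBump.convolution_tendsto_right_of_continuous rOut_tendsto hΨ 0

/-- Upper semicontinuity of weighted squares. -/
theorem mol_upper {a g : E n → ℝ} (ha : Continuous a) (hac : HasCompactSupport a)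
    (ha0 : ∀ x, 0 ≤ a x) (hg : LocallyIntegrable g) (hg2 : LocallyIntegrable (fun x => g x ^ 2))
    {δ : ℝ} (hδ : 0 < δ) :
    ∀ᶠ m in atTop, ∫ x, a x * mol m g x ^ 2 ≤ (∫ x, a x * g x ^ 2) + δ := by
  have h := (mol_weak ha hac hg2).eventually (gt_mem_nhds (lt_add_of_pos_right _ hδ))
  filter_upwards [h] with m hm
  refine le_trans (integral_mono ?_ ?_ fun x => ?_) hm.le
  · exact (ha.mul ((mol_smooth m hg).continuous.pow 2)).integrable_of_hasCompactSupport
      hac.mul_right
  · exact (ha.mul (mol_smooth m hg2).continuous).integrable_of_hasCompactSupport hac.mul_right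
  · exact mul_le_mul_of_nonneg_left (mol_sq_le m hg hg2 x) (ha0 x)

/-- Fatou's lemma in the form used below. -/
theorem fatou {F : ℕ → E n → ℝ} {F0 : E n → ℝ} (hF : ∀ m, Integrable (F m))
    (h0 : ∀ m x, 0 ≤ F m x) (hl : ∀ᵐ x, Tendsto (fun m => F m x) atTop (𝓝 (F0 x))) {t : ℝ}
    (ht : ENNReal.ofReal t < ∫⁻ x, ENNReal.ofReal (F0 x)) :
    ∀ᶠ m in atTop, t ≤ ∫ x, F m x := by
  have h1 := lintegral_liminf_le' (μ := (volume : Measure (E n))) (u := atTop)
    (f := fun m x => ENNReal.ofReal (F m x))
    (fun m => (hF m).aestronglyMeasurable.aemeasurable.ennreal_ofReal)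
  have h2 : ∫⁻ x, ENNReal.ofReal (F0 x) =
      ∫⁻ x, liminf (fun m => ENNReal.ofReal (F m x)) atTop := by
    apply lintegral_congr_ae
    filter_upwards [hl] with x hx
    exact ((ENNReal.continuous_ofReal.tendsto _).comp hx).liminf_eq.symm
  have h3 := eventually_lt_of_lt_liminf (lt_of_lt_of_le ht (h2 ▸ h1))
  filter_upwards [h3] with m hm
  rw [← ofReal_integral_eq_lintegral_ofReal (hF m) (Eventually.of_forall (h0 m))] at hm
  exact ((ENNReal.ofReal_lt_ofReal_iff'.1 hm).1).le

theorem mol_lower {a g : E n → ℝ} (ha : Continuous a) (hac : HasCompactSupport a)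
    (ha0 : ∀ x, 0 ≤ a x) (hg : LocallyIntegrable g) (hg2 : LocallyIntegrable (fun x => g x ^ 2))
    {δ : ℝ} (hδ : 0 < δ) :
    ∀ᶠ m in atTop, (∫ x, a x * g x ^ 2) - δ ≤ ∫ x, a x * mol m g x ^ 2 := by
  by_cases h : (∫ x, a x * g x ^ 2) - δ ≤ 0
  · exact Eventually.of_forall fun m => h.trans
      (integral_nonneg fun x => mul_nonneg (ha0 x) (sq_nonneg _))
  have hi : Integrable (fun x => a x * g x ^ 2) := by
    simpa using hg2.integrable_smul_left_of_hasCompactSupport ha hac
  apply fatou (F0 := fun x => a x * g x ^ 2)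
  · intro m
    exact (ha.mul ((mol_smooth m hg).continuous.pow 2)).integrable_of_hasCompactSupport
      hac.mul_right
  · exact fun m x => mul_nonneg (ha0 x) (sq_nonneg _)
  · filter_upwards [mol_ae hg] with x hx
    exact (hx.pow 2).const_mul _
  · rw [← ofReal_integral_eq_lintegral_ofReal hi
      (Eventually.of_forall fun x => mul_nonneg (ha0 x) (sq_nonneg _))]
    rw [ENNReal.ofReal_lt_ofReal_iff (by linarith)]
    linarith

theorem mol_upper_signed {a g : E n → ℝ} (ha : Continuous a) (hac : HasCompactSupport a)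
    (hg : LocallyIntegrable g) (hg2 : LocallyIntegrable (fun x => g x ^ 2))
    {δ : ℝ} (hδ : 0 < δ) :
    ∀ᶠ m in atTop, ∫ x, a x * mol m g x ^ 2 ≤ (∫ x, a x * g x ^ 2) + 2 * δ := by
  let p : E n → ℝ := fun x => max (a x) 0
  let q : E n → ℝ := fun x => max (-a x) 0
  have hp : Continuous p := ha.max continuous_const
  have hq : Continuous q := ha.neg.max continuous_const
  have hpc : HasCompactSupport p := HasCompactSupport.intro hac fun x hx => by
    simp [p, image_eq_zero_of_notMem_tsupport hx]
  have hqc : HasCompactSupport q := HasCompactSupport.intro hac fun x hx => by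
    simp [q, image_eq_zero_of_notMem_tsupport hx]
  have split : ∀ u : E n → ℝ, LocallyIntegrable u →
      ∫ x, a x * u x = (∫ x, p x * u x) - ∫ x, q x * u x := by
    intro u hu
    rw [← integral_sub (by simpa using hu.integrable_smul_left_of_hasCompactSupport hp hpc)
      (by simpa using hu.integrable_smul_left_of_hasCompactSupport hq hqc)]
    congr 1
    funext x
    simp only [p, q]
    rw [← sub_mul, max_zero_sub_max_neg_zero_eq_self]
  filter_upwards [mol_upper hp hpc (fun x => le_max_right _ _) hg hg2 hδ,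
    mol_lower hq hqc (fun x => le_max_right _ _) hg hg2 hδ] with m h1 h2
  rw [split _ hg2, split (fun x => mol m g x ^ 2)
    ((mol_smooth m hg).continuous.pow 2).locallyIntegrable]
  linarith

theorem locInt_of_L2 {g : E n → ℝ} (h : ∀ K, IsCompact K → MemLp g 2 (volume.restrict K)) :
    LocallyIntegrable g ∧ LocallyIntegrable (fun x => g x ^ 2) := by
  constructor
  · rw [locallyIntegrable_iff]
    intro K hK
    have : IsFiniteMeasure (volume.restrict K) := isFiniteMeasure_restrict.2 hK.measure_lt_top.ne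
    exact (h K hK).integrable (by norm_num)
  · rw [locallyIntegrable_iff]
    intro K hK
    exact (h K hK).integrable_sq

/-- A Sobolev inequality for smooth compactly supported functions passes to `θ w`. -/
theorem sobolev_weak {Λ : ℝ}
    (hS : ∀ v : E n → ℝ, ContDiff ℝ 1 v → HasCompactSupport v → ∀ τ : ℝ, 0 ≤ τ →
      τ ^ 3 ≤ ∫ x, |v x| ^ 3 → Λ * τ ^ 2 ≤ ∫ x, gsq v x)
    {θ : E n → ℝ} (hθ : ContDiff ℝ 2 θ) (hθc : HasCompactSupport θ)
    {w : E n → ℝ} {G : Fin n → E n → ℝ} (hw : H1 w G) {τ : ℝ} (hτ : 0 ≤ τ)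
    (ht : ENNReal.ofReal (τ ^ 3) < ∫⁻ x, ENNReal.ofReal (|θ x * w x| ^ 3)) :
    Λ * τ ^ 2 ≤ (∫ x, θ x ^ 2 * ∑ i, G i x ^ 2) + ∫ x, -(θ x * Lap θ x) * w x ^ 2 := by
  obtain ⟨w1, w2⟩ := locInt_of_L2 hw.L2_w
  have G1 := fun i => (locInt_of_L2 (hw.L2_G i)).1
  have G2 := fun i => (locInt_of_L2 (hw.L2_G i)).2
  have hθ2 : Continuous fun x => θ x ^ 2 := hθ.continuous.pow 2
  have hθ2c : HasCompactSupport fun x => θ x ^ 2 := HasCompactSupport.intro hθc fun x hx => by
    simp [image_eq_zero_of_notMem_tsupport hx]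
  have ha : Continuous fun x => -(θ x * Lap θ x) := (hθ.continuous.mul (continuous_Lap hθ)).neg
  have hac : HasCompactSupport fun x => -(θ x * Lap θ x) :=
    HasCompactSupport.intro hθc fun x hx => by simp [image_eq_zero_of_notMem_tsupport hx]
  have sm : ∀ m, ContDiff ℝ 1 (mol m w) := fun m =>
    (mol_smooth m w1).of_le (by exact_mod_cast le_top)
  have hθ1 : ContDiff ℝ 1 θ := hθ.of_le (by norm_num)
  refine le_of_forall_pos_le_add fun ε hε => ?_
  have hδ : 0 < ε / (n + 2) := by positivity
  have e1 : ∀ᶠ m in atTop, ∀ i, ∫ x, θ x ^ 2 * mol m (G i) x ^ 2 ≤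
      (∫ x, θ x ^ 2 * G i x ^ 2) + ε / (n + 2) :=
    eventually_all.2 fun i => mol_upper hθ2 hθ2c (fun x => sq_nonneg _) (G1 i) (G2 i) hδ
  have e2 := mol_upper_signed ha hac w1 w2 hδ
  have e3 : ∀ᶠ m in atTop, τ ^ 3 ≤ ∫ x, |θ x * mol m w x| ^ 3 := by
    apply fatou (F0 := fun x => |θ x * w x| ^ 3) _ (fun m x => by positivity) _ ht
    · intro m
      exact ((hθ.continuous.mul (sm m).continuous).abs.pow 3).integrable_of_hasCompactSupport
        (HasCompactSupport.intro hθc fun x hx => by simp [image_eq_zero_of_notMem_tsupport hx])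
    · filter_upwards [mol_ae w1] with x hx
      exact ((hx.const_mul _).abs).pow 3
  obtain ⟨m, h1, h2, h3⟩ := (e1.and (e2.and e3)).exists
  have h4 := hS (fun x => θ x * mol m w x) (hθ1.mul (sm m)) hθc.mul_right τ hτ h3
  rw [ground_state hθ (sm m) hθc.isCompact
    (Or.inl fun x hx => notMem_tsupport_iff_eventuallyEq.1 hx)] at h4
  have s1 : ∫ x, θ x ^ 2 * gsq (mol m w) x = ∑ i, ∫ x, θ x ^ 2 * mol m (G i) x ^ 2 := by
    rw [← integral_finsetSum]
    · congr 1
      funext x
      simp only [gsq, Finset.mul_sum, D_mol m w1 hw.weak]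
    · intro i _
      exact (hθ2.mul ((mol_smooth m (G1 i)).continuous.pow 2)).integrable_of_hasCompactSupport
        hθ2c.mul_right
  have s2 : ∫ x, θ x ^ 2 * ∑ i, G i x ^ 2 = ∑ i, ∫ x, θ x ^ 2 * G i x ^ 2 := by
    rw [← integral_finsetSum]
    · simp only [Finset.mul_sum]
    · intro i _
      simpa using (G2 i).integrable_smul_left_of_hasCompactSupport hθ2 hθ2c
  have s3 : ∑ i, ∫ x, θ x ^ 2 * mol m (G i) x ^ 2 ≤
      ∑ i : Fin n, ((∫ x, θ x ^ 2 * G i x ^ 2) + ε / (n + 2)) := Finset.sum_le_sum fun i _ => h1 i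
  rw [Finset.sum_add_distrib] at s3
  simp only [Finset.sum_const, Finset.card_univ, Fintype.card_fin, nsmul_eq_mul] at s3
  have s4 : (n : ℝ) * (ε / (n + 2)) + 2 * (ε / (n + 2)) = ε := by field_simp
  rw [s2]
  rw [s1] at h4
  linarith

end Pool.Agent.P.MP_80466e_an
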