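import Pool.Agent.P.MP_80466e_an.Test
import Pool.Agent.P.MP_80466e_an.Moll

/-!
A conformally flat metric on the six-dimensional torus and a positive function `f` for which no
constant is critical.
-/

set_option autoImplicit false

noncomputable section

namespace Pool.Agent.P.MP_80466e_an

open MeasureTheory Filter Topology

theorem ofReal_integral_le {X : Type*} [MeasurableSpace X] {μ : Measure X} {g : X → ℝ}
    (hg : Integrable g μ) : ENNReal.ofReal (∫ x, g x ∂μ) ≤ ∫⁻ x, ENNReal.ofReal (g x) ∂μ := by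
  have h1 : ∫ x, g x ∂μ ≤ ∫ x, max (g x) 0 ∂μ :=
    integral_mono hg hg.pos_part fun x => le_max_left _ _
  refine (ENNReal.ofReal_le_ofReal h1).trans (le_of_eq ?_)
  rw [ofReal_integral_eq_lintegral_ofReal hg.pos_part
    (Eventually.of_forall fun x => le_max_right _ _)]
  congr 1
  funext x
  simp

/-- The conformal factor. -/
def psi (θ : E 6 → ℝ) (x : E 6) : ℝ := √(PerSum (fun y => θ y ^ 2) x)

/-- The function `f`. -/
def ff (θ : E 6 → ℝ) (x : E 6) : ℝ := PerSum (fun y => θ y ^ 3) x / psi θ x ^ 3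

/-- The competitor `k`. -/
def kk (θ : E 6 → ℝ) (x : E 6) : ℝ := PerSum (fun y => -(θ y * Lap θ y)) x / psi θ x ^ 3

/-- The standing properties of the profile `θ`. -/
structure Good (θ : E 6 → ℝ) : Prop where
  sm : ContDiff ℝ (⊤ : ℕ∞) θ
  cs : HasCompactSupport θ
  nn : ∀ x, 0 ≤ θ x
  supp : ∀ y, θ y ≠ 0 → ∀ i, |y i| < 3 / 4
  pos : ∀ x, (∀ i, |x i| ≤ 1 / 2) → 0 < θ x

namespace Good

variable {θ : E 6 → ℝ} (h : Good θ)
include h

theorem c2 : ContDiff ℝ 2 θ := h.sm.of_le (WithTop.coe_le_coe.2 (le_top : (2 : ℕ∞) ≤ ⊤))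

theorem cs_pow {m : ℕ} (hm : m ≠ 0) : HasCompactSupport fun y => θ y ^ m :=
  HasCompactSupport.intro h.cs fun x hx => by simp [image_eq_zero_of_notMem_tsupport hx, hm]

theorem cs_q : HasCompactSupport fun y => -(θ y * Lap θ y) :=
  HasCompactSupport.intro h.cs fun x hx => by simp [image_eq_zero_of_notMem_tsupport hx]

theorem cont_q : Continuous fun y => -(θ y * Lap θ y) :=
  (h.sm.continuous.mul (continuous_Lap h.c2)).neg

theorem per_pos {m : ℕ} (hm : m ≠ 0) (x : E 6) : 0 < PerSum (fun y => θ y ^ m) x := by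
  obtain ⟨g, hg, -⟩ := exists_unique_cell x
  have h1 : 0 < θ (g.1 + x) := h.pos _ fun i => abs_le.2 ⟨(hg i).1, (hg i).2.le⟩
  exact (pow_pos h1 m).trans_le (le_perSum (h.cs_pow hm) (fun y => pow_nonneg (h.nn y) m) g x)

theorem psi_pos (x : E 6) : 0 < psi θ x := Real.sqrt_pos.2 (h.per_pos two_ne_zero x)

theorem psi_sq (x : E 6) : psi θ x ^ 2 = PerSum (fun y => θ y ^ 2) x :=
  Real.sq_sqrt (h.per_pos two_ne_zero x).le

theorem psi_sm : ContDiff ℝ (⊤ : ℕ∞) (psi θ) :=
  (contDiff_perSum (h.cs_pow two_ne_zero) (h.sm.pow 2)).sqrt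
    fun x => (h.per_pos two_ne_zero x).ne'

omit h in
theorem psi_per : Per (psi θ) := fun x i => by simp only [psi, per_perSum _ x i]

theorem ff_sm : ContDiff ℝ (⊤ : ℕ∞) (ff θ) :=
  (contDiff_perSum (h.cs_pow three_ne_zero) (h.sm.pow 3)).div (h.psi_sm.pow 3)
    fun x => (pow_pos (h.psi_pos x) 3).ne'

omit h in
theorem ff_per : Per (ff θ) := fun x i => by simp only [ff, per_perSum _ x i, psi_per x i]

omit h in
theorem kk_per : Per (kk θ) := fun x i => by simp only [kk, per_perSum _ x i, psi_per x i]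

theorem kk_cont : Continuous (kk θ) :=
  (continuous_perSum h.cs_q h.cont_q).div (h.psi_sm.continuous.pow 3)
    fun x => (pow_pos (h.psi_pos x) 3).ne'

theorem ff_pos (x : E 6) : 0 < ff θ x :=
  div_pos (h.per_pos three_ne_zero x) (pow_pos (h.psi_pos x) 3)

theorem le_psi (k : Lat 6) (x : E 6) : θ (k.1 + x) ≤ psi θ x :=
  Real.le_sqrt_of_sq_le (le_perSum (h.cs_pow two_ne_zero) (fun y => pow_nonneg (h.nn y) 2) k x)

theorem cube_le (k : Lat 6) (x : E 6) : θ (k.1 + x) ^ 3 ≤ psi θ x * θ (k.1 + x) ^ 2 := by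
  have := mul_le_mul_of_nonneg_right (h.le_psi k x) (sq_nonneg (θ (k.1 + x)))
  linarith [pow_succ' (θ (k.1 + x)) 2]

theorem psi_cube (x : E 6) : ∑' k : Lat 6, psi θ x * θ (k.1 + x) ^ 2 = psi θ x ^ 3 := by
  rw [tsum_mul_left, pow_succ' _ 2, h.psi_sq]
  rfl

theorem ff_le (x : E 6) : ff θ x ≤ 1 := by
  rw [ff, div_le_one (pow_pos (h.psi_pos x) 3), ← h.psi_cube]
  exact Summable.tsum_le_tsum (fun k => h.cube_le k x) (summable_per (h.cs_pow three_ne_zero) x)
    ((summable_per (h.cs_pow two_ne_zero) x).mul_left _)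

theorem ff_lt : ff θ (EuclideanSpace.single 0 (1 / 2)) < 1 := by
  set x : E 6 := EuclideanSpace.single 0 (1 / 2) with hx
  have p0 : 0 < θ ((0 : Lat 6).1 + x) := h.pos _ fun i => by
    by_cases hi : i = 0
    · simp [hx, hi]
    · simp [hx, hi]
  have p1 : 0 < θ ((-latE 0 : Lat 6).1 + x) := h.pos _ fun i => by
    by_cases hi : i = 0
    · simp [hx, hi, latE]; norm_num [abs_le]
    · simp [hx, hi, latE]
  have hne : (0 : Lat 6) ≠ -latE 0 := by
    intro e
    have := congrArg (fun k : Lat 6 => k.1 0) e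
    simp [latE] at this
  have h1 := (summable_per (h.cs_pow two_ne_zero) x).sum_le_tsum {0, -latE 0}
    (fun k _ => pow_nonneg (h.nn _) 2)
  rw [Finset.sum_pair hne] at h1
  have h2 : θ ((0 : Lat 6).1 + x) < psi θ x :=
    Real.lt_sqrt_of_sq_lt (lt_of_lt_of_le (by nlinarith) h1)
  rw [ff, div_lt_one (pow_pos (h.psi_pos x) 3), ← h.psi_cube]
  refine Summable.tsum_lt_tsum (i := 0) (fun k => h.cube_le k x) ?_
    (summable_per (h.cs_pow three_ne_zero) x) ((summable_per (h.cs_pow two_ne_zero) x).mul_left _)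
  have := mul_lt_mul_of_pos_right h2 (pow_pos p0 2)
  linarith [pow_succ' (θ ((0 : Lat 6).1 + x)) 2]

theorem near {x : E 6} (hx : ‖x‖ < 1 / 4) :
    psi θ x = θ x ∧ ff θ x = 1 ∧ kk θ x * θ x ^ 2 = -Lap θ x := by
  have hx' : ∀ i, |x i| ≤ 1 - 3 / 4 := fun i => by linarith [abs_le_norm' x i]
  have e1 : psi θ x = θ x := by
    rw [psi, perSum_eq_self (a := 3 / 4) (fun y hy => h.supp y (by simpa using hy)) hx',
      Real.sqrt_sq (h.nn x)]
  have p : θ x ≠ 0 := e1 ▸ (h.psi_pos x).ne'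
  refine ⟨e1, ?_, ?_⟩
  · rw [ff, e1, perSum_eq_self (a := 3 / 4) (fun y hy => h.supp y (by simpa using hy)) hx']
    field_simp
  · rw [kk, e1, perSum_eq_self (a := 3 / 4) (fun y hy => h.supp y (by
      intro e; simp [e] at hy)) hx']
    field_simp

theorem lam_f : Lam (ff θ) = (Ksq 6)⁻¹ := by
  have : ⨆ x, ff θ x = 1 := by
    apply le_antisymm (ciSup_le h.ff_le)
    rw [← (h.near (x := 0) (by simp)).2.1]
    exact le_ciSup ⟨1, by rintro _ ⟨x, rfl⟩; exact h.ff_le x⟩ 0
  simp [Lam, this]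

theorem energy_eq {w : E 6 → ℝ} {G : Fin 6 → E 6 → ℝ} (hw : H1 w G) :
    energy (psi θ) (kk θ) w G =
      (∫ x, θ x ^ 2 * ∑ i, G i x ^ 2) + ∫ x, -(θ x * Lap θ x) * w x ^ 2 := by
  have iG : LocallyIntegrable fun x => ∑ i, G i x ^ 2 :=
    locallyIntegrable_finsetSum _ fun i _ => (locInt_of_L2 (hw.L2_G i)).2
  have i1 : Integrable fun x => θ x ^ 2 * ∑ i, G i x ^ 2 :=
    iG.integrable_smul_left_of_hasCompactSupport (h.sm.continuous.pow 2) (h.cs_pow two_ne_zero)
  have i2 : Integrable fun x => -(θ x * Lap θ x) * w x ^ 2 :=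
    (locInt_of_L2 hw.L2_w).2.integrable_smul_left_of_hasCompactSupport h.cont_q h.cs_q
  rw [unfold_integral (Φ := fun x => ∑ i, G i x ^ 2) (h.cs_pow two_ne_zero)
      (fun x j => by simp only [hw.per_G _ x j]) i1,
    unfold_integral (Φ := fun x => w x ^ 2) h.cs_q (fun x j => by simp only [hw.per_w x j]) i2,
    energy, intM_grad h.psi_pos, intM_six]
  congr 1
  · simp only [h.psi_sq]
  · congr 1
    funext x
    have := (h.psi_pos x).ne'
    simp only [kk]
    field_simp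

theorem lint_eq {w : E 6 → ℝ} {G : Fin 6 → E 6 → ℝ} (hw : H1 w G) :
    ∫⁻ x, ENNReal.ofReal (|θ x * w x| ^ 3) =
      ∫⁻ x in cell 6, ENNReal.ofReal (ff θ x * |w x| ^ 3 * psi θ x ^ 3) := by
  have hm : AEMeasurable w := (locInt_of_L2 hw.L2_w).1.aestronglyMeasurable.aemeasurable
  have := unfold_lintegral (Φ := fun x => |w x| ^ 3) (h.cs_pow three_ne_zero)
    (fun x j => by simp only [hw.per_w x j]) (fun x => pow_nonneg (h.nn x) 3)
    (fun x => by positivity)
    ((h.sm.continuous.pow 3).measurable.aemeasurable.mul (hm.abs.pow_const 3))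
  convert this using 4 with x x
  · rw [abs_mul, abs_of_nonneg (h.nn x), mul_pow]
  · have := (h.psi_pos x).ne'
    simp only [ff]
    field_simp

variable {Λ : ℝ} (hS : ∀ v : E 6 → ℝ, ContDiff ℝ 1 v → HasCompactSupport v → ∀ τ : ℝ, 0 ≤ τ →
  τ ^ 3 ≤ ∫ x, |v x| ^ 3 → Λ * τ ^ 2 ≤ ∫ x, gsq v x)
include hS

theorem energy_ge {w : E 6 → ℝ} {G : Fin 6 → E 6 → ℝ} (hw : H1 w G) {τ : ℝ} (hτ : 0 ≤ τ)
    (ht : ENNReal.ofReal (τ ^ 3) <
      ∫⁻ x in cell 6, ENNReal.ofReal (ff θ x * |w x| ^ 3 * psi θ x ^ 3)) :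
    Λ * τ ^ 2 ≤ energy (psi θ) (kk θ) w G := by
  rw [h.energy_eq hw]
  exact sobolev_weak hS h.c2 h.cs hw hτ (by rwa [h.lint_eq hw])

theorem le_lam : ((Λ : ℝ) : EReal) ≤ lam (psi θ) (kk θ) (ff θ) := by
  apply le_sInf
  rintro _ ⟨w, G, hw, h1, rfl⟩
  rw [EReal.coe_le_coe_iff]
  rw [intM_six] at h1
  simp only [exp_six] at h1
  have h2 : ∫⁻ x in cell 6, ENNReal.ofReal (ff θ x * |w x| ^ 3 * psi θ x ^ 3) =
      ENNReal.ofReal 1 := by
    rw [← ofReal_integral_eq_lintegral_ofReal (integrable_of_integral_eq_one h1)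
      (Eventually.of_forall fun x => by
        have := h.ff_pos x
        have := h.psi_pos x
        positivity), h1]
  have h3 : Tendsto (fun τ : ℝ => Λ * τ ^ 2) (𝓝[<] 1) (𝓝 (Λ * 1 ^ 2)) :=
    ((continuous_const.mul (continuous_id.pow 2)).tendsto 1).mono_left nhdsWithin_le_nhds
  rw [one_pow, mul_one] at h3
  apply le_of_tendsto h3
  filter_upwards [Ioo_mem_nhdsLT (zero_lt_one' ℝ)] with τ hτ
  apply h.energy_ge hS hw hτ.1.le
  rw [h2, ENNReal.ofReal_lt_ofReal_iff one_pos]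
  exact pow_lt_one₀ hτ.1.le hτ.2 three_ne_zero

theorem coercive (hΛ : 0 < Λ) : Coercive (psi θ) (kk θ) := by
  have cψ : Continuous fun x => psi θ x ^ 3 := h.psi_sm.continuous.pow 3
  have pψ : ∀ x, 0 < psi θ x ^ 3 := fun x => pow_pos (h.psi_pos x) 3
  obtain ⟨f0, hf0, hf⟩ := (isCompact_closedBall (0 : E 6) ((6 : ℕ) + 1)).exists_forall_le'
    h.ff_sm.continuous.continuousOn (a := 0) fun x _ => h.ff_pos x
  obtain ⟨C, hC⟩ := (isCompact_closedBall (0 : E 6) ((6 : ℕ) + 1)).exists_bound_of_continuousOn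
    h.kk_cont.continuousOn
  have hC0 : 0 ≤ C := (norm_nonneg _).trans (hC 0 (by simp; positivity))
  have iψ : IntegrableOn (fun x => psi θ x ^ 3) (cell 6) :=
    integrableOn_cell cψ.locallyIntegrable
  have hV0 : 0 ≤ ∫ x in cell 6, psi θ x ^ 3 := integral_nonneg fun x => (pψ x).le
  set V := ∫ x in cell 6, psi θ x ^ 3 with hV
  let t := min 1 (f0 / 2)
  have t0 : 0 < t := lt_min one_pos (by positivity)
  have t1 : t ≤ 1 := min_le_left _ _
  have t2 : t ≤ f0 / 2 := min_le_right _ _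
  have t3 : t ^ 3 < f0 * (V + 1) := by
    have : t ^ 3 ≤ t := pow_le_of_le_one t0.le t1 three_ne_zero
    nlinarith
  let c := Λ * t ^ 2 / (V + 1)
  have c0 : 0 < c := by positivity
  refine ⟨c / (c + C + 1), by positivity, fun w G hw => ?_⟩
  have w2 := (locInt_of_L2 hw.L2_w).2
  have iw : ∀ a : E 6 → ℝ, Continuous a → IntegrableOn (fun x => a x * w x ^ 2) (cell 6) :=
    fun a ha => integrableOn_cell (w2.continuous_mul ha)
  have iN := iw _ cψ
  have hA : 0 ≤ intM (psi θ) (gradSq (psi θ) G) := by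
    rw [intM_grad h.psi_pos]
    exact integral_nonneg fun x => by positivity
  have eN : intM (psi θ) (fun x => w x ^ 2) = ∫ x in cell 6, psi θ x ^ 3 * w x ^ 2 := by
    simp only [intM_six, mul_comm]
  have hN : 0 ≤ ∫ x in cell 6, psi θ x ^ 3 * w x ^ 2 :=
    integral_nonneg fun x => mul_nonneg (pψ x).le (sq_nonneg _)
  rw [eN]
  set N := ∫ x in cell 6, psi θ x ^ 3 * w x ^ 2 with hNd
  have hB : -C * N ≤ intM (psi θ) (fun x => kk θ x * w x ^ 2) := by
    rw [intM_six, hNd, ← integral_const_mul]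
    have i2 := iw _ (h.kk_cont.mul cψ)
    refine setIntegral_mono_on (iN.const_mul _) (i2.congr_fun (fun x _ => by
      simp only [Pi.mul_apply]; ring) measurableSet_cell) measurableSet_cell fun x hx => ?_
    have h1 := (abs_le.1 (hC x (cell_subset hx))).1
    have h2 : 0 ≤ psi θ x ^ 3 * w x ^ 2 := mul_nonneg (pψ x).le (sq_nonneg _)
    nlinarith
  have hE1 : intM (psi θ) (gradSq (psi θ) G) - C * N ≤ energy (psi θ) (kk θ) w G := by
    unfold energy; linarith
  have hE2 : c * N ≤ energy (psi θ) (kk θ) w G := by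
    rcases hN.eq_or_lt with e | hN
    · rw [← e] at hE1 ⊢
      linarith
    have hs2 : √(N / (V + 1)) ^ 2 = N / (V + 1) := Real.sq_sqrt (by positivity)
    have hs0 : 0 < √(N / (V + 1)) := Real.sqrt_pos.2 (by positivity)
    set s := √(N / (V + 1))
    have hsN : N = s ^ 2 * (V + 1) := by rw [hs2]; field_simp
    have ig : IntegrableOn (fun x => f0 * (3 / 2 * s) * (psi θ x ^ 3 * w x ^ 2) -
        f0 * (s ^ 3 / 2) * psi θ x ^ 3) (cell 6) := (iN.const_mul _).sub (iψ.const_mul _)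
    have key := h.energy_ge hS hw (τ := t * s) (by positivity) (by
      refine lt_of_lt_of_le ?_ ((ofReal_integral_le ig).trans
        (setLIntegral_mono' measurableSet_cell fun x hx => ENNReal.ofReal_le_ofReal ?_))
      · rw [integral_sub (iN.const_mul _) (iψ.const_mul _), integral_const_mul, integral_const_mul,
          ← hNd, ← hV]
        have h1 : (t * s) ^ 3 < f0 * (3 / 2 * s) * N - f0 * (s ^ 3 / 2) * V := by
          rw [hsN, mul_pow]
          have := mul_lt_mul_of_pos_right t3 (pow_pos hs0 3)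
          have : 0 ≤ f0 * s ^ 3 := by positivity
          nlinarith
        exact (ENNReal.ofReal_lt_ofReal_iff ((by positivity : 0 < (t * s) ^ 3).trans h1)).2 h1
      · have h1 := hf x (cell_subset hx)
        have h2 : 3 / 2 * s * w x ^ 2 - s ^ 3 / 2 ≤ |w x| ^ 3 := by
          rw [← sq_abs (w x)]
          have := mul_nonneg (sq_nonneg (|w x| - s))
            (by positivity : 0 ≤ 2 * |w x| + s)
          nlinarith
        have h3 : f0 * |w x| ^ 3 ≤ ff θ x * |w x| ^ 3 :=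
          mul_le_mul_of_nonneg_right h1 (by positivity)
        have h4 := mul_le_mul_of_nonneg_left h2 hf0.le
        have h5 := mul_le_mul_of_nonneg_right (h4.trans h3) (pψ x).le
        linarith)
    have : c * N = Λ * (t * s) ^ 2 := by
      rw [hsN]
      simp only [c]
      field_simp
    linarith
  rw [div_mul_eq_mul_div, div_le_iff₀ (by positivity)]
  nlinarith

end Good

theorem no_constant_critical : ∃ θ : E 6 → ℝ, Good θ ∧
    ∀ c : ℝ, ¬ Critical (psi θ) (ff θ) (fun _ => c) := by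
  obtain ⟨θ, h1, h2, h3, h4, h5, θ0, L0, hk, x0, hx0, hlt⟩ := exists_theta
  have h : Good θ := ⟨h1, h2, h3, h4, h5⟩
  refine ⟨θ, h, fun c hc => ?_⟩
  have hw := hc.1
  unfold WeaklyCritical at hw
  rw [h.lam_f] at hw
  have hT : ∀ M, c - 12 < M → ∃ r, 0 < r ∧ ∀ u : E 6 → ℝ, ContDiff ℝ 1 u →
      (∀ y, u y ≠ 0 → ‖y‖ < r) → ∫ x, |u x| ^ 3 = 1 →
      (Ksq 6)⁻¹ ≤ (∫ x, gsq u x) + M * ∫ x, u x ^ 2 := by
    intro M hM
    have hV : ContinuousAt (fun x => c * θ x + Lap θ x / θ x) 0 :=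
      (continuousAt_const.mul h1.continuous.continuousAt).add
        ((continuous_Lap h.c2).continuousAt.div h1.continuous.continuousAt (by simp [θ0]))
    have hev := hV.eventually (gt_mem_nhds (a := M) (by simp [θ0, L0]; linarith))
    obtain ⟨ε, hε, hball⟩ := Metric.eventually_nhds_iff.1 hev
    refine ⟨min ε (1 / 8), lt_min hε (by norm_num), fun u hu hs h1 => ?_⟩
    obtain ⟨w, G, hH, e1, e2⟩ := test_fun (f := ff θ) (c := c) (M := M) h.c2 h.psi_pos
      (fun x hx => ⟨(h.near hx).1, (h.near hx).2.1⟩)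
      ((min_le_right ε (1 / 8)).trans_lt (by norm_num))
      (fun x hx => (hball (by simpa using hx.trans_le (min_le_left _ _))).le) hu hs
    have : lam (psi θ) (fun _ => c) (ff θ) ≤ (energy (psi θ) (fun _ => c) w G : ℝ) :=
      sInf_le ⟨w, G, hH, e1.trans h1, rfl⟩
    rw [hw, EReal.coe_le_coe_iff] at this
    exact this.trans e2
  rcases lt_or_ge c 12 with hc12 | hc12
  · obtain ⟨r, hr, hT⟩ := hT ((c - 12) / 2) (by linarith)
    obtain ⟨v, R, τ, hv, hR, hs, hτ, hτ3, hlt⟩ :=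
      bn_test (κ := (12 - c) / 2 * r ^ 2) (mul_pos (by linarith) (by positivity))
    have := scaled_test hT hv hs (μ := r / R) (by positivity) (by field_simp; rfl) hτ hτ3
    have e : (c - 12) / 2 * (r / R) ^ 2 = -((12 - c) / 2 * r ^ 2 / R ^ 2) := by
      field_simp; ring
    rw [e] at this
    linarith
  · obtain ⟨r, hr, hT⟩ := hT (c - 11) (by linarith)
    have hS := sobolev_of_test Ksq_pos (by linarith) hr hT
    have k12 : ∀ x, kk θ x ≤ 12 := by
      intro x
      obtain ⟨g, hg, -⟩ := exists_unique_cell x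
      rw [← Good.kk_per.lat g x, kk, div_le_iff₀ (pow_pos (h.psi_pos _) 3)]
      exact hk _ hg
    have hsub := hc.2 (kk θ) h.kk_cont Good.kk_per (fun x => (k12 x).trans hc12) (fun e => by
      have h6 := (h.near hx0).2.2
      rw [e] at h6
      have := mul_le_mul_of_nonneg_right hc12 (sq_nonneg (θ x0))
      linarith) (h.coercive hS Ksq_pos)
    unfold Subcritical at hsub
    rw [h.lam_f] at hsub
    exact absurd (h.le_lam hS) (not_le.2 hsub)

end Pool.Agent.P.MP_80466e_an
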