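import Pool.Agent.P.MP_80466e_an.Calc

/-!
Periodization over the integer lattice and unfolding of integrals.
-/

set_option autoImplicit false

noncomputable section

namespace Pool.Agent.P.MP_80466e_an

open MeasureTheory Filter Topology

variable {n : ℕ}

/-- The integer lattice. -/
def Lat (n : ℕ) : AddSubgroup (E n) where
  carrier := {k | ∀ i, ∃ m : ℤ, k i = m}
  add_mem' := by
    intro a b ha hb i
    obtain ⟨p, hp⟩ := ha i
    obtain ⟨q, hq⟩ := hb i
    exact ⟨p + q, by simp [hp, hq]⟩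
  zero_mem' := fun i => ⟨0, by simp⟩
  neg_mem' := by
    intro a ha i
    obtain ⟨p, hp⟩ := ha i
    exact ⟨-p, by simp [hp]⟩

theorem lat_floor_inj : Function.Injective (fun (k : Lat n) (i : Fin n) => ⌊k.1 i⌋) := by
  intro k k' h
  apply Subtype.ext
  ext i
  obtain ⟨p, hp⟩ := k.2 i
  obtain ⟨q, hq⟩ := k'.2 i
  have := congrFun h i
  simp only [hp, hq, Int.floor_intCast] at this
  rw [hp, hq, this]

instance latCountable : Countable (Lat n) := lat_floor_inj.countable

theorem lat_finite (R : ℝ) : {k : Lat n | ‖k.1‖ ≤ R}.Finite := by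
  apply Set.Finite.of_finite_image _ lat_floor_inj.injOn
  apply (Set.Finite.pi' (fun _ : Fin n => Set.finite_Icc ⌊-R⌋ ⌊R⌋)).subset
  rintro _ ⟨k, hk, rfl⟩ i
  have h1 : |k.1 i| ≤ R := (by simpa using PiLp.norm_apply_le k.1 i : |k.1 i| ≤ ‖k.1‖).trans hk
  rw [abs_le] at h1
  exact ⟨Int.floor_le_floor h1.1, Int.floor_le_floor h1.2⟩

theorem lat_ne_zero {k : Lat n} (hk : k ≠ 0) : ∃ i, 1 ≤ |k.1 i| := by
  by_contra h
  push Not at h
  apply hk
  apply Subtype.ext
  ext i
  obtain ⟨p, hp⟩ := k.2 i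
  have := h i
  rw [hp] at this
  have h1 : |(p : ℝ)| < (1 : ℝ) := this
  have h2 : |p| < 1 := by exact_mod_cast h1
  have : p = 0 := by
    rw [abs_lt] at h2
    omega
  simp [hp, this]

/-- The unit lattice vectors. -/
def latE (i : Fin n) : Lat n := ⟨EuclideanSpace.single i 1, fun j => by
  by_cases h : j = i
  · exact ⟨1, by simp [h]⟩
  · exact ⟨0, by simp [h]⟩⟩

theorem Per.lat {w : E n → ℝ} (hw : Per w) (k : Lat n) (x : E n) : w (k.1 + x) = w x := by
  have h1 : ∀ (i : Fin n) (m : ℤ) (x : E n), w (x + EuclideanSpace.single i (m : ℝ)) = w x := by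
    intro i m x
    have hp : Function.Periodic w (EuclideanSpace.single i (1 : ℝ)) := fun x => hw x i
    have := hp.zsmul m x
    rwa [show (m • EuclideanSpace.single i (1 : ℝ) : E n) = EuclideanSpace.single i (m : ℝ) by
      ext j
      by_cases h : j = i <;> simp [h]] at this
  choose m hm using k.2
  have h2 : ∀ (s : Finset (Fin n)) (x : E n),
      w (x + ∑ i ∈ s, EuclideanSpace.single i (m i : ℝ)) = w x := by
    intro s
    induction s using Finset.induction_on with
    | empty => simp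
    | insert i s hi ih =>
      intro x
      rw [Finset.sum_insert hi, add_comm (EuclideanSpace.single i _), ← add_assoc, h1, ih]
  have h3 : k.1 = ∑ i, EuclideanSpace.single i (m i : ℝ) := by
    ext j
    simp [hm j, Finset.sum_apply, Pi.single_apply]
  rw [add_comm, h3, h2]

theorem measurableSet_cell : MeasurableSet (cell n) := by
  have : cell n = ⋂ i, (fun x : E n => x i) ⁻¹' Set.Ico (-(1 / 2)) (1 / 2) := by
    ext x; simp [cell]
  rw [this]
  exact MeasurableSet.iInter fun i => measurableSet_Ico.preimage (by fun_prop)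

theorem exists_unique_cell (x : E n) : ∃! g : Lat n, g +ᵥ x ∈ cell n := by
  refine ⟨⟨WithLp.toLp 2 fun i => ((-⌊x i + 1 / 2⌋ : ℤ) : ℝ), fun i => ⟨_, rfl⟩⟩, ?_, ?_⟩
  · intro i
    have h1 := Int.floor_le (x i + 1 / 2)
    have h2 := Int.lt_floor_add_one (x i + 1 / 2)
    simp only [AddSubgroup.mk_vadd, vadd_eq_add, PiLp.add_apply, Int.cast_neg]
    constructor <;> linarith
  · intro g hg
    apply Subtype.ext
    ext i
    obtain ⟨p, hp⟩ := g.2 i
    have h := hg i
    have e : (g +ᵥ x) i = p + x i := by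
      rw [← hp]; rfl
    rw [e] at h
    have : ⌊x i + 1 / 2⌋ = -p := by
      rw [Int.floor_eq_iff]
      push_cast
      constructor <;> linarith [h.1, h.2]
    rw [hp]
    change (p : ℝ) = ((-⌊x i + 1 / 2⌋ : ℤ) : ℝ)
    rw [this, neg_neg]

theorem fund : IsAddFundamentalDomain (Lat n) (cell n) (volume : Measure (E n)) :=
  IsAddFundamentalDomain.mk' measurableSet_cell.nullMeasurableSet exists_unique_cell

theorem norm_le_of_cell {x : E n} (hx : x ∈ cell n) : ‖x‖ ^ 2 ≤ n / 4 := by
  rw [EuclideanSpace.real_norm_sq_eq]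
  calc ∑ i, x i ^ 2 ≤ ∑ _i : Fin n, (1 / 4 : ℝ) :=
        Finset.sum_le_sum fun i _ => by nlinarith [(hx i).1, (hx i).2]
    _ = n / 4 := by simp; ring

theorem cell_subset : cell n ⊆ Metric.closedBall 0 (n + 1) := by
  intro x hx
  rw [mem_closedBall_zero_iff]
  have h := norm_le_of_cell hx
  have hn : (0 : ℝ) ≤ n := Nat.cast_nonneg n
  nlinarith [norm_nonneg x]

theorem cell_vol_lt : volume (cell n) < ⊤ :=
  (measure_mono cell_subset).trans_lt (isCompact_closedBall _ _).measure_lt_top

theorem ball_subset_cell : Metric.ball (0 : E n) (1 / 2) ⊆ cell n := by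
  intro x hx i
  rw [mem_ball_zero_iff] at hx
  have h1 : |x i| ≤ ‖x‖ := by simpa using PiLp.norm_apply_le x i
  have := abs_lt.1 (h1.trans_lt hx)
  exact ⟨this.1.le, this.2⟩

theorem integrableOn_cell {F : E n → ℝ} (hF : LocallyIntegrable F) : IntegrableOn F (cell n) :=
  (hF.integrableOn_isCompact (isCompact_closedBall _ _)).mono_set cell_subset

/-- The periodization. -/
def PerSum (F : E n → ℝ) (x : E n) : ℝ := ∑' k : Lat n, F (k.1 + x)

theorem perSum_local {K : Set (E n)} (hK : IsCompact K) (R : ℝ) :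
    ∃ S : Finset (Lat n), ∀ k, k ∉ S → ∀ x : E n, ‖x‖ ≤ R → k.1 + x ∉ K := by
  obtain ⟨R', hR'⟩ := hK.isBounded.subset_closedBall 0
  refine ⟨(lat_finite (R + R')).toFinset, fun k hk x hx hmem => hk ?_⟩
  have h := hR' hmem
  rw [mem_closedBall_zero_iff] at h
  simp only [Set.Finite.mem_toFinset, Set.mem_ofPred_eq]
  have := norm_sub_le (k.1 + x) x
  rw [add_sub_cancel_right] at this
  linarith

theorem perSum_eq {F : E n → ℝ} (hF : HasCompactSupport F) (R : ℝ) :
    ∃ S : Finset (Lat n), (∀ k, k ∉ S → ∀ x : E n, ‖x‖ ≤ R → F (k.1 + x) = 0) ∧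
      ∀ x : E n, ‖x‖ ≤ R → PerSum F x = ∑ k ∈ S, F (k.1 + x) := by
  obtain ⟨S, hS⟩ := perSum_local hF.isCompact R
  have h := fun k hk x hx => image_eq_zero_of_notMem_tsupport (hS k hk x hx)
  exact ⟨S, h, fun x hx => tsum_eq_sum fun k hk => h k hk x hx⟩

theorem summable_per {F : E n → ℝ} (hF : HasCompactSupport F) (x : E n) :
    Summable fun k : Lat n => F (k.1 + x) := by
  obtain ⟨S, hS, -⟩ := perSum_eq hF ‖x‖
  exact summable_of_ne_finset_zero fun k hk => hS k hk x le_rfl

theorem contDiff_perSum {m : WithTop ℕ∞} {F : E n → ℝ} (hF : HasCompactSupport F)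
    (hs : ContDiff ℝ m F) : ContDiff ℝ m (PerSum F) := by
  rw [contDiff_iff_contDiffAt]
  intro x
  obtain ⟨S, -, hS⟩ := perSum_eq hF (‖x‖ + 1)
  have h : ContDiff ℝ m fun y : E n => ∑ k ∈ S, F (k.1 + y) :=
    ContDiff.sum fun k _ => hs.comp (contDiff_const.add contDiff_id)
  apply h.contDiffAt.congr_of_eventuallyEq
  filter_upwards [Metric.ball_mem_nhds x one_pos] with y hy
  apply hS
  have := norm_le_norm_add_norm_sub' y x
  rw [mem_ball_iff_norm] at hy
  linarith

theorem continuous_perSum {F : E n → ℝ} (hF : HasCompactSupport F) (hs : Continuous F) :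
    Continuous (PerSum F) :=
  (contDiff_perSum (m := 0) hF (contDiff_zero.2 hs)).continuous

theorem per_perSum (F : E n → ℝ) : Per (PerSum F) := by
  intro x i
  simp only [PerSum]
  rw [← (Equiv.addRight (latE i)).tsum_eq fun k : Lat n => F (k.1 + x)]
  congr 1
  funext k
  congr 1
  simp only [Equiv.coe_addRight, AddSubgroup.coe_add, latE]
  abel

theorem perSum_eq_self {F : E n → ℝ} {a : ℝ} (hF : ∀ y : E n, F y ≠ 0 → ∀ i, |y i| < a)
    {x : E n} (hx : ∀ i, |x i| ≤ 1 - a) : PerSum F x = F x := by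
  have : F x = F ((0 : Lat n).1 + x) := by simp
  rw [this]
  apply tsum_eq_single
  intro k hk
  by_contra h
  obtain ⟨i, hi⟩ := lat_ne_zero hk
  have h1 := hF _ h i
  have h2 := hx i
  have h3 : |k.1 i| ≤ |(k.1 + x) i| + |x i| := by
    have := abs_sub (k.1 i + x i) (x i)
    simpa using this
  linarith

theorem le_perSum {F : E n → ℝ} (hF : HasCompactSupport F) (h0 : ∀ y, 0 ≤ F y) (k : Lat n)
    (x : E n) : F (k.1 + x) ≤ PerSum F x :=
  (summable_per hF x).le_tsum k fun _ _ => h0 _

theorem unfold_integral {F Φ : E n → ℝ} (hF : HasCompactSupport F) (hΦ : Per Φ)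
    (hi : Integrable fun x => F x * Φ x) :
    ∫ x, F x * Φ x = ∫ x in cell n, PerSum F x * Φ x := by
  obtain ⟨S, hS0, hS⟩ := perSum_eq hF (n + 1)
  have hc : ∀ x ∈ cell n, ‖x‖ ≤ n + 1 := fun x hx => mem_closedBall_zero_iff.1 (cell_subset hx)
  rw [fund.integral_eq_tsum'' _ hi]
  have e : ∀ (k : Lat n) (x : E n), F (k +ᵥ x) * Φ (k +ᵥ x) = F (k.1 + x) * Φ x := by
    intro k x
    rw [← hΦ.lat k x]; rfl
  simp_rw [e]
  rw [tsum_eq_sum (s := S), ← integral_finsetSum]
  · apply setIntegral_congr_fun measurableSet_cell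
    intro x hx
    simp only [hS x (hc x hx), Finset.sum_mul]
  · intro k _
    have := (hi.comp_add_left k.1).integrableOn (s := cell n)
    simp only [hΦ.lat k] at this
    exact this
  · intro k hk
    apply setIntegral_eq_zero_of_forall_eq_zero
    intro x hx
    rw [hS0 k hk x (hc x hx), zero_mul]

theorem unfold_lintegral {F Φ : E n → ℝ} (hF : HasCompactSupport F) (hΦ : Per Φ)
    (F0 : ∀ x, 0 ≤ F x) (Φ0 : ∀ x, 0 ≤ Φ x) (hm : AEMeasurable fun x => F x * Φ x) :
    ∫⁻ x, ENNReal.ofReal (F x * Φ x) = ∫⁻ x in cell n, ENNReal.ofReal (PerSum F x * Φ x) := by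
  rw [fund.lintegral_eq_tsum'']
  have e : ∀ (k : Lat n) (x : E n), F (k +ᵥ x) * Φ (k +ᵥ x) = F (k.1 + x) * Φ x := by
    intro k x
    rw [← hΦ.lat k x]; rfl
  simp_rw [e]
  rw [← lintegral_tsum]
  · congr 1
    funext x
    rw [← ENNReal.ofReal_tsum_of_nonneg (fun k => mul_nonneg (F0 _) (Φ0 _))
      ((summable_per hF x).mul_right _), tsum_mul_right]
    rfl
  · intro k
    have := (hm.comp_quasiMeasurePreserving
      (measurePreserving_add_left volume k.1).quasiMeasurePreserving).restrict (s := cell n)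
    apply AEMeasurable.ennreal_ofReal
    simpa only [Function.comp_def, hΦ.lat k] using this

theorem Per.D {w : E n → ℝ} (hw : Per w) (i : Fin n) : Per (D i w) := by
  intro x j
  simp only [Pool.Agent.P.MP_80466e_an.D]
  rw [← fderiv_comp_add_right]
  congr 2
  funext y
  exact hw y j

/-- A periodic function of class `C¹` lies in the Sobolev space. -/
theorem h1_of_contDiff {w : E n → ℝ} (hw : ContDiff ℝ 1 w) (hp : Per w) :
    H1 w (fun i => D i w) := by
  have L2 : ∀ u : E n → ℝ, Continuous u → ∀ K, IsCompact K → MemLp u 2 (volume.restrict K) := by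
    intro u hu K hK
    rw [memLp_two_iff_integrable_sq hu.aestronglyMeasurable]
    exact (hu.pow 2).continuousOn.integrableOn_compact hK
  refine ⟨hp, hp.D, L2 _ hw.continuous, fun i => L2 _ (continuous_D hw i), ?_⟩
  intro η hη hηc i
  have hη1 : ContDiff ℝ 1 η := hη.of_le (by exact_mod_cast le_top)
  exact integral_mul_fderiv_eq_neg_fderiv_mul_of_integrable
    (((continuous_D hw i).mul hη.continuous).integrable_of_hasCompactSupport hηc.mul_left)
    ((hw.continuous.mul (continuous_D hη1 i)).integrable_of_hasCompactSupport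
      (hasCompactSupport_D hηc i).mul_left)
    ((hw.continuous.mul hη.continuous).integrable_of_hasCompactSupport hηc.mul_left)
    (fun x _ => hw.differentiable one_ne_zero x) (fun x _ => hη1.differentiable one_ne_zero x)

end Pool.Agent.P.MP_80466e_an
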