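import Pool.Agent.P.MP_80466e_an.Period

/-!
The compactly supported profile from which the metric and the function are built.
-/

set_option autoImplicit false

noncomputable section

namespace Pool.Agent.P.MP_80466e_an

open MeasureTheory Filter Topology

theorem Lap_add_mul {n : ℕ} {a b : E n → ℝ} (ha : ContDiff ℝ 2 a) (hb : ContDiff ℝ 2 b) (L : ℝ)
    (x : E n) : Lap (fun y => a y + L * b y) x = Lap a x + L * Lap b x := by
  have da := ha.differentiable (by norm_num)
  have db := hb.differentiable (by norm_num)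
  have dDa : ∀ i, Differentiable ℝ (D i a) := fun i =>
    (contDiff_D (m := 1) ha (by norm_num) i).differentiable one_ne_zero
  have dDb : ∀ i, Differentiable ℝ (D i b) := fun i =>
    (contDiff_D (m := 1) hb (by norm_num) i).differentiable one_ne_zero
  simp only [Lap, Finset.mul_sum, ← Finset.sum_add_distrib]
  refine Finset.sum_congr rfl fun i _ => ?_
  have e : D i (fun y => a y + L * b y) = fun y => D i a y + L * D i b y := by
    funext y
    rw [D_add (da y) ((db y).const_mul L), D_const_mul (db y)]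
  rw [e, D_add (dDa i x) ((dDb i x).const_mul L), D_const_mul (dDb i x)]

theorem hasCompactSupport_Lap {n : ℕ} {u : E n → ℝ} (hu : HasCompactSupport u) :
    HasCompactSupport (Lap u) :=
  HasCompactSupport.intro hu fun x hx => by
    have : u =ᶠ[nhds x] fun _ => 0 := notMem_tsupport_iff_eventuallyEq.1 hx
    rw [Lap_congr this]
    have e : ∀ i : Fin n, D i (fun _ : E n => (0 : ℝ)) = fun _ => 0 := by
      intro i; funext y; simp [D]
    simp [Lap, e]

theorem abs_le_norm' {n : ℕ} (x : E n) (i : Fin n) : |x i| ≤ ‖x‖ := by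
  simpa using PiLp.norm_apply_le x i

theorem exists_theta : ∃ θ : E 6 → ℝ, ContDiff ℝ (⊤ : ℕ∞) θ ∧ HasCompactSupport θ ∧
    (∀ x, 0 ≤ θ x) ∧ (∀ y, θ y ≠ 0 → ∀ i, |y i| < 3 / 4) ∧
    (∀ x, (∀ i, |x i| ≤ 1 / 2) → 0 < θ x) ∧ θ 0 = 1 ∧ Lap θ 0 = -12 ∧
    (∀ x ∈ cell 6, PerSum (fun y => -(θ y * Lap θ y)) x ≤
      12 * √(PerSum (fun y => θ y ^ 2) x) ^ 3) ∧
    ∃ x : E 6, ‖x‖ < 1 / 4 ∧ -Lap θ x < 12 * θ x ^ 2 := by
  let β : ContDiffBump (0 : ℝ) := ⟨1 / 2, 3 / 4, by norm_num, by norm_num⟩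
  let η : E 6 → ℝ := fun x => ∏ i, β (x i)
  have hη : ContDiff ℝ (⊤ : ℕ∞) η :=
    contDiff_prod fun i _ => β.contDiff.comp (EuclideanSpace.proj (𝕜 := ℝ) i).contDiff
  have η0 : ∀ x, 0 ≤ η x := fun x => Finset.prod_nonneg fun i _ => β.nonneg
  have η1 : ∀ x : E 6, (∀ i, |x i| ≤ 1 / 2) → η x = 1 := fun x hx =>
    Finset.prod_eq_one fun i _ => β.one_of_mem_closedBall (mem_closedBall_zero_iff.2 (hx i))
  have ηs : ∀ y, η y ≠ 0 → ∀ i, |y i| < 3 / 4 := by
    intro y hy i
    by_contra h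
    exact hy (Finset.prod_eq_zero (Finset.mem_univ i)
      (β.zero_of_le_dist (by simpa using not_lt.1 h)))
  have hηc : HasCompactSupport η := by
    refine HasCompactSupport.intro (isCompact_closedBall 0 2) fun y hy => ?_
    by_contra h
    apply hy
    rw [mem_closedBall_zero_iff]
    have h1 : ‖y‖ ^ 2 ≤ ∑ _i : Fin 6, (9 / 16 : ℝ) := by
      rw [EuclideanSpace.real_norm_sq_eq]
      refine Finset.sum_le_sum fun i _ => ?_
      have := abs_lt.1 (ηs y h i)
      nlinarith [this.1, this.2]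
    simp at h1
    nlinarith [norm_nonneg y]
  have hs : ContDiff ℝ (⊤ : ℕ∞) fun y : E 6 => ‖y‖ ^ 2 := contDiff_norm_sq ℝ
  let a : E 6 → ℝ := fun y => (1 - ‖y‖ ^ 2) * η y
  let b : E 6 → ℝ := fun y => (‖y‖ ^ 2) ^ 2 * η y
  have ha : ContDiff ℝ (⊤ : ℕ∞) a := (contDiff_const.sub hs).mul hη
  have hb : ContDiff ℝ (⊤ : ℕ∞) b := (hs.pow 2).mul hη
  have two : (2 : WithTop ℕ∞) ≤ (⊤ : ℕ∞) := WithTop.coe_le_coe.2 (le_top : (2 : ℕ∞) ≤ ⊤)
  have hac : HasCompactSupport a := hηc.mul_left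
  have hbc : HasCompactSupport b := hηc.mul_left
  obtain ⟨M1, hM1⟩ := ha.continuous.bounded_above_of_compact_support hac
  obtain ⟨M2, hM2⟩ := hb.continuous.bounded_above_of_compact_support hbc
  obtain ⟨M3, hM3⟩ := (continuous_Lap (ha.of_le two)).bounded_above_of_compact_support
    (hasCompactSupport_Lap hac)
  obtain ⟨M4, hM4⟩ := (continuous_Lap (hb.of_le two)).bounded_above_of_compact_support
    (hasCompactSupport_Lap hbc)
  have p1 : 0 ≤ M1 := (norm_nonneg _).trans (hM1 0)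
  have p2 : 0 ≤ M2 := (norm_nonneg _).trans (hM2 0)
  have p3 : 0 ≤ M3 := (norm_nonneg _).trans (hM3 0)
  have p4 : 0 ≤ M4 := (norm_nonneg _).trans (hM4 0)
  obtain ⟨S, hS⟩ := perSum_local hηc.isCompact 7
  set Z : ℝ := S.card * ((M1 + M2) * (M3 + M4)) with hZ
  have hZ0 : 0 ≤ Z := by positivity
  set L : ℝ := 256 + Z * 512 ^ 3 with hL
  have hL1 : 256 ≤ L := by rw [hL]; linarith [mul_nonneg hZ0 (by positivity : (0 : ℝ) ≤ 512 ^ 3)]
  let θ : E 6 → ℝ := fun y => a y + L * b y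
  let P : ℝ → ℝ := fun s => 1 - s + L * s ^ 2
  have hθP : ∀ y, θ y = P (‖y‖ ^ 2) * η y := by intro y; simp only [θ, a, b, P]; ring
  have Ppos : ∀ s, 0 < P s := by
    intro s
    simp only [P]
    nlinarith [sq_nonneg (s - 1 / 2), sq_nonneg s]
  have hθ : ContDiff ℝ (⊤ : ℕ∞) θ := ha.add (contDiff_const.mul hb)
  have θz : ∀ y, η y = 0 → θ y = 0 := fun y hy => by rw [hθP, hy, mul_zero]
  have θs : ∀ y, θ y ≠ 0 → ∀ i, |y i| < 3 / 4 := fun y hy => ηs y fun h => hy (θz y h)
  have hθc : HasCompactSupport θ := HasCompactSupport.intro hηc fun y hy =>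
    θz y (image_eq_zero_of_notMem_tsupport hy)
  have θ1 : ∀ x : E 6, (∀ i, |x i| ≤ 1 / 2) → θ x = P (‖x‖ ^ 2) := fun x hx => by
    rw [hθP, η1 x hx, mul_one]
  have θ0 : ∀ x, 0 ≤ θ x := fun x => by rw [hθP]; exact mul_nonneg (Ppos _).le (η0 x)
  have hLap : ∀ x : E 6, ‖x‖ < 1 / 2 → Lap θ x = -12 + 32 * L * ‖x‖ ^ 2 := by
    intro x hx
    have ev : θ =ᶠ[𝓝 x] fun y => P (‖y‖ ^ 2) := by
      filter_upwards [(isOpen_lt continuous_norm continuous_const).mem_nhds hx] with y hy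
      exact θ1 y fun i => (abs_le_norm' y i).trans (le_of_lt hy)
    have h1 : ∀ s : ℝ, 0 ≤ s → HasDerivAt P (-1 + 2 * L * s) s := by
      intro s _
      refine (((hasDerivAt_id' s).const_sub 1).fun_add
        (((hasDerivAt_id' s).fun_pow 2).const_mul L)).congr_deriv ?_
      simp; ring
    have h2 : ∀ s : ℝ, 0 ≤ s → HasDerivAt (fun s => -1 + 2 * L * s) (2 * L) s := by
      intro s _
      simpa using ((hasDerivAt_id' s).const_mul (2 * L)).const_add (-1)
    rw [Lap_congr ev, Lap_radial h1 h2]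
    push_cast
    ring
  refine ⟨θ, hθ, hθc, θ0, θs, fun x hx => by rw [θ1 x hx]; exact Ppos _, ?_, ?_, ?_, ?_⟩
  · rw [θ1 0 (by simp)]; simp [P]
  · rw [hLap 0 (by simp)]; simp
  · intro x hx
    have hx2 : ∀ i, |x i| ≤ 1 / 2 := fun i => abs_le.2 ⟨(hx i).1, (hx i).2.le⟩
    by_cases hn : ‖x‖ < 1 / 4
    · have hq : ∀ i, |x i| ≤ 1 - 3 / 4 := fun i => by linarith [abs_le_norm' x i]
      rw [perSum_eq_self (a := 3 / 4) (fun y hy => θs y fun h => hy (by simp [h])) hq,
        perSum_eq_self (a := 3 / 4) (fun y hy => θs y fun h => hy (by simp [h])) hq,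
        Real.sqrt_sq (θ0 x), hLap x (by linarith), θ1 x hx2]
      have s0 : 0 ≤ ‖x‖ ^ 2 := sq_nonneg _
      have s1 : ‖x‖ ^ 2 ≤ 1 / 16 := by nlinarith [norm_nonneg x]
      set s := ‖x‖ ^ 2
      have hp := Ppos s
      have h1 : 1 - s ≤ P s := by simp only [P]; nlinarith [sq_nonneg s]
      have h2 : 1 - 2 * s ≤ P s ^ 2 := by nlinarith
      have h3 : 12 - 32 * L * s ≤ 12 * P s ^ 2 := by nlinarith
      nlinarith
    · have hx7 : ‖x‖ ≤ 7 := by
        have := mem_closedBall_zero_iff.1 (cell_subset hx)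
        norm_num at this
        exact this
      have s0 : 1 / 16 ≤ ‖x‖ ^ 2 := by nlinarith [norm_nonneg x]
      have s1 : ‖x‖ ^ 2 ≤ 3 / 2 := by
        have := norm_le_of_cell hx
        norm_num at this
        linarith
      have h1 : L / 512 ≤ θ x := by
        rw [θ1 x hx2]
        simp only [P]
        have : 1 / 256 ≤ (‖x‖ ^ 2) ^ 2 := by nlinarith
        nlinarith
      have hc2 : HasCompactSupport fun y => θ y ^ 2 := HasCompactSupport.intro hθc fun y hy => by
        simp [image_eq_zero_of_notMem_tsupport hy]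
      have h2 : θ x ≤ √(PerSum (fun y => θ y ^ 2) x) := by
        apply Real.le_sqrt_of_sq_le
        simpa using le_perSum hc2 (fun y => sq_nonneg _) 0 x
      have h3 : (L / 512) ^ 3 ≤ √(PerSum (fun y => θ y ^ 2) x) ^ 3 :=
        pow_le_pow_left₀ (by positivity) (h1.trans h2) 3
      have h4 : ∀ y, -(θ y * Lap θ y) ≤ (M1 + M2) * (M3 + M4) * L ^ 2 := by
        intro y
        have e1 : |θ y| ≤ (M1 + M2) * L := by
          have := abs_add_le (a y) (L * b y)
          rw [abs_mul L, abs_of_pos (by linarith : 0 < L)] at this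
          have q1 : |a y| ≤ M1 := hM1 y
          have q2 : |b y| ≤ M2 := hM2 y
          simp only [θ]
          nlinarith
        have e2 : |Lap θ y| ≤ (M3 + M4) * L := by
          rw [Lap_add_mul (ha.of_le two) (hb.of_le two)]
          have := abs_add_le (Lap a y) (L * Lap b y)
          rw [abs_mul L, abs_of_pos (by linarith : 0 < L)] at this
          have q1 : |Lap a y| ≤ M3 := hM3 y
          have q2 : |Lap b y| ≤ M4 := hM4 y
          nlinarith
        calc -(θ y * Lap θ y) ≤ |θ y| * |Lap θ y| := by rw [← abs_mul]; exact neg_le_abs _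
          _ ≤ ((M1 + M2) * L) * ((M3 + M4) * L) :=
            mul_le_mul e1 e2 (abs_nonneg _) (by positivity)
          _ = _ := by ring
      have h5 : PerSum (fun y => -(θ y * Lap θ y)) x ≤ Z * L ^ 2 := by
        rw [PerSum, tsum_eq_sum (s := S) fun k hk => by
          simp [θz _ (image_eq_zero_of_notMem_tsupport (hS k hk x hx7))]]
        refine (Finset.sum_le_card_nsmul _ _ _ fun k _ => h4 _).trans (le_of_eq ?_)
        rw [nsmul_eq_mul, hZ]
        ring
      have h6 : Z * L ^ 2 ≤ (L / 512) ^ 3 := by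
        have : Z * 512 ^ 3 ≤ L := by rw [hL]; linarith
        rw [div_pow, le_div_iff₀ (by positivity)]
        nlinarith [sq_nonneg L]
      have h7 : 0 ≤ (L / 512) ^ 3 := by positivity
      linarith
  · have hn : ‖(EuclideanSpace.single 0 (1 / 8) : E 6)‖ = 1 / 8 := by simp
    refine ⟨EuclideanSpace.single 0 (1 / 8), by rw [hn]; norm_num, ?_⟩
    rw [hLap _ (by rw [hn]; norm_num), hn]
    nlinarith [sq_nonneg (θ (EuclideanSpace.single 0 (1 / 8)))]

end Pool.Agent.P.MP_80466e_an
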