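import Pool.Agent.P.MP_80466e_an.Period
import Pool.Agent.P.MP_80466e_an.Bubble
import Pool.Agent.P.MP_80466e_an.Theta

/-!
Test functions concentrated near the origin.
-/

set_option autoImplicit false

noncomputable section

namespace Pool.Agent.P.MP_80466e_an

open MeasureTheory Filter Topology

theorem intM_six (ψ F : E 6 → ℝ) : intM ψ F = ∫ x in cell 6, F x * ψ x ^ 3 := by
  unfold intM
  congr 1
  funext x
  rw [show ((6 : ℕ) : ℝ) / 2 = ((3 : ℕ) : ℝ) by norm_num, Real.rpow_natCast]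

theorem exp_six (t : ℝ) : t ^ (2 * ((6 : ℕ) : ℝ) / (((6 : ℕ) : ℝ) - 2)) = t ^ 3 := by
  rw [show 2 * ((6 : ℕ) : ℝ) / (((6 : ℕ) : ℝ) - 2) = ((3 : ℕ) : ℝ) by norm_num, Real.rpow_natCast]

theorem intM_grad {ψ : E 6 → ℝ} (hψ : ∀ x, 0 < ψ x) (G : Fin 6 → E 6 → ℝ) :
    intM ψ (gradSq ψ G) = ∫ x in cell 6, ψ x ^ 2 * ∑ i, G i x ^ 2 := by
  rw [intM_six]
  congr 1
  funext x
  have := (hψ x).ne'
  simp only [gradSq]
  field_simp

theorem test_fun {θ ψ f : E 6 → ℝ} (hθ : ContDiff ℝ 2 θ) (hψ : ∀ x, 0 < ψ x)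
    (near : ∀ x, ‖x‖ < 1 / 4 → ψ x = θ x ∧ f x = 1) {c M r : ℝ} (hr : r < 1 / 4)
    (hV : ∀ x, ‖x‖ < r → c * θ x + Lap θ x / θ x ≤ M)
    {u : E 6 → ℝ} (hu : ContDiff ℝ 1 u) (hs : ∀ y, u y ≠ 0 → ‖y‖ < r) :
    ∃ w G, H1 w G ∧
      intM ψ (fun x => f x * |w x| ^ (2 * ((6 : ℕ) : ℝ) / (((6 : ℕ) : ℝ) - 2))) = ∫ x, |u x| ^ 3 ∧
      energy ψ (fun _ => c) w G ≤ (∫ x, gsq u x) + M * ∫ x, u x ^ 2 := by
  have hθ1 : ContDiff ℝ 1 θ := hθ.of_le (by norm_num)
  have θpos : ∀ x, ‖x‖ < 1 / 4 → 0 < θ x := fun x hx => (near x hx).1 ▸ hψ x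
  let w0 : E 6 → ℝ := fun y => u y / θ y
  have uz : ∀ y, r ≤ ‖y‖ → u y = 0 := fun y hy => by
    by_contra h; linarith [hs y h]
  have wz : ∀ y, r ≤ ‖y‖ → w0 y = 0 := fun y hy => by simp [w0, uz y hy]
  have wev : ∀ y, y ∉ Metric.closedBall (0 : E 6) r → w0 =ᶠ[𝓝 y] fun _ => 0 := by
    intro y hy
    filter_upwards [Metric.isClosed_closedBall.isOpen_compl.mem_nhds hy] with z hz
    apply wz
    simp only [Set.mem_compl_iff, mem_closedBall_zero_iff, not_le] at hz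
    exact hz.le
  have hw0 : ContDiff ℝ 1 w0 := by
    rw [contDiff_iff_contDiffAt]
    intro y
    by_cases hy : ‖y‖ < 1 / 4
    · exact hu.contDiffAt.div hθ1.contDiffAt (θpos y hy).ne'
    · apply contDiffAt_const.congr_of_eventuallyEq (wev y _)
      rw [mem_closedBall_zero_iff]
      linarith
  have cs : ∀ {F : E 6 → ℝ}, (∀ y, r < ‖y‖ → F y = 0) → HasCompactSupport F := fun h =>
    HasCompactSupport.intro (isCompact_closedBall 0 r) fun y hy => h y (by simpa using hy)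
  have gz : ∀ y, r < ‖y‖ → gsq w0 y = 0 := by
    intro y hy
    rw [gsq_congr (wev y (by simpa using hy))]
    simp [gsq, D]
  have hmul : ∀ y, θ y * w0 y = u y := by
    intro y
    by_cases hy : ‖y‖ < 1 / 4
    · have := (θpos y hy).ne'
      simp only [w0]; field_simp
    · rw [wz y (by linarith), uz y (by linarith), mul_zero]
  let w := PerSum w0
  have hw : ContDiff ℝ 1 w := contDiff_perSum (cs fun y hy => wz y hy.le) hw0
  have ev : ∀ x ∈ cell 6, w =ᶠ[𝓝 x] w0 := by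
    intro x hx
    filter_upwards [Metric.ball_mem_nhds x (by norm_num : (0 : ℝ) < 1 / 4)] with y hy
    apply perSum_eq_self (a := 1 / 4)
    · intro z hz i
      have : ‖z‖ < r := by
        by_contra h; exact hz (wz z (not_lt.1 h))
      linarith [abs_le_norm' z i]
    · intro i
      have h1 := abs_le_norm' (y - x) i
      rw [mem_ball_iff_norm] at hy
      have h2 : |x i| ≤ 1 / 2 := abs_le.2 ⟨(hx i).1, (hx i).2.le⟩
      have h3 : |y i| ≤ |(y - x) i| + |x i| := by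
        simpa using abs_add_le (y i - x i) (x i)
      linarith
  have out : ∀ x, x ∉ cell 6 → r < ‖x‖ := by
    intro x hx
    by_contra h
    exact hx (ball_subset_cell (mem_ball_zero_iff.2 (by linarith)))
  have toE : ∀ {F F' : E 6 → ℝ}, (∀ x ∈ cell 6, F x = F' x) → (∀ y, r < ‖y‖ → F' y = 0) →
      ∫ x in cell 6, F x = ∫ x, F' x := by
    intro F F' h1 h2
    rw [setIntegral_congr_fun measurableSet_cell h1]
    exact setIntegral_eq_integral_of_forall_compl_eq_zero fun x hx => h2 x (out x hx)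
  refine ⟨w, fun i => D i w, h1_of_contDiff hw (per_perSum _), ?_, ?_⟩
  · rw [intM_six]
    apply toE
    · intro x hx
      rw [exp_six, (ev x hx).self_of_nhds]
      by_cases hy : ‖x‖ < 1 / 4
      · rw [(near x hy).1, (near x hy).2, ← hmul x, abs_mul, abs_of_pos (θpos x hy)]
        ring
      · simp [wz x (by linarith), uz x (by linarith)]
    · intro y hy
      simp [uz y hy.le]
  · have e1 : intM ψ (gradSq ψ fun i => D i w) = ∫ x, θ x ^ 2 * gsq w0 x := by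
      rw [intM_grad hψ]
      apply toE
      · intro x hx
        change ψ x ^ 2 * gsq w x = _
        rw [gsq_congr (ev x hx)]
        by_cases hy : ‖x‖ < 1 / 4
        · rw [(near x hy).1]
        · simp [gz x (by linarith)]
      · intro y hy
        simp [gz y hy]
    have e2 : intM ψ (fun x => c * w x ^ 2) = ∫ x, c * θ x ^ 3 * w0 x ^ 2 := by
      rw [intM_six]
      apply toE
      · intro x hx
        rw [(ev x hx).self_of_nhds]
        by_cases hy : ‖x‖ < 1 / 4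
        · rw [(near x hy).1]; ring
        · simp [wz x (by linarith)]
      · intro y hy
        simp [wz y hy.le]
    have gs := ground_state hθ hw0 (isCompact_closedBall 0 r) (Or.inr wev)
    simp only [hmul] at gs
    have i1 : Integrable fun x => c * θ x ^ 3 * w0 x ^ 2 :=
      ((continuous_const.mul (hθ.continuous.pow 3)).mul
        (hw0.continuous.pow 2)).integrable_of_hasCompactSupport (cs fun y hy => by
          simp [wz y hy.le])
    have i2 : Integrable fun x => -(θ x * Lap θ x) * w0 x ^ 2 :=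
      ((hθ.continuous.mul (continuous_Lap hθ)).neg.mul
        (hw0.continuous.pow 2)).integrable_of_hasCompactSupport (cs fun y hy => by
          simp [wz y hy.le])
    have i3 : Integrable fun x => M * u x ^ 2 :=
      (continuous_const.mul (hu.continuous.pow 2)).integrable_of_hasCompactSupport
        (cs fun y hy => by simp [uz y hy.le])
    have key : (∫ x, c * θ x ^ 3 * w0 x ^ 2) - ∫ x, -(θ x * Lap θ x) * w0 x ^ 2 ≤
        M * ∫ x, u x ^ 2 := by
      rw [← integral_sub i1 i2, ← integral_const_mul]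
      apply integral_mono (i1.sub i2) i3 fun x => ?_
      simp only [Pi.sub_apply]
      by_cases hx : ‖x‖ < r
      · have hp := (θpos x (by linarith)).ne'
        have : c * θ x ^ 3 * w0 x ^ 2 - -(θ x * Lap θ x) * w0 x ^ 2 =
            (c * θ x + Lap θ x / θ x) * u x ^ 2 := by
          simp only [w0]; field_simp; ring
        rw [this]
        exact mul_le_mul_of_nonneg_right (hV x hx) (sq_nonneg _)
      · simp [wz x (not_lt.1 hx), uz x (not_lt.1 hx)]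
    unfold energy
    rw [e1, e2]
    linarith

theorem scaled_test {Λ M r : ℝ}
    (hT : ∀ u : E 6 → ℝ, ContDiff ℝ 1 u → (∀ y, u y ≠ 0 → ‖y‖ < r) → ∫ x, |u x| ^ 3 = 1 →
      Λ ≤ (∫ x, gsq u x) + M * ∫ x, u x ^ 2)
    {v : E 6 → ℝ} (hv : ContDiff ℝ 1 v) {R μ τ : ℝ} (hs : ∀ y, v y ≠ 0 → ‖y‖ < R) (hμ : 0 < μ)
    (hμR : μ * R ≤ r) (hτ : 0 < τ) (hτ3 : τ ^ 3 = ∫ x, |v x| ^ 3) :
    Λ * τ ^ 2 ≤ (∫ x, gsq v x) + M * μ ^ 2 * ∫ x, v x ^ 2 := by
  have hα : 0 < (μ ^ 2 * τ)⁻¹ := by positivity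
  have dv := hv.differentiable one_ne_zero
  have hv2 : ContDiff ℝ 1 fun y : E 6 => v (μ⁻¹ • y) := hv.comp (contDiff_id.const_smul _)
  have sc : ∀ F : E 6 → ℝ, ∫ x, F (μ⁻¹ • x) = μ ^ 6 * ∫ x, F x := by
    intro F
    rw [Measure.integral_comp_inv_smul_of_nonneg volume F hμ.le]
    simp
  have h := hT (fun y => (μ ^ 2 * τ)⁻¹ * v (μ⁻¹ • y)) (contDiff_const.mul hv2) ?_ ?_
  · simp only [gsq_const_mul (hv2.differentiable one_ne_zero), gsq_scale dv, mul_pow,
      integral_const_mul] at h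
    rw [sc (gsq v), sc fun x => v x ^ 2] at h
    have e : (μ ^ 2 * τ)⁻¹ ^ 2 * (μ⁻¹ ^ 2 * (μ ^ 6 * ∫ x, gsq v x)) +
        M * ((μ ^ 2 * τ)⁻¹ ^ 2 * (μ ^ 6 * ∫ x, v x ^ 2)) =
        ((∫ x, gsq v x) + M * μ ^ 2 * ∫ x, v x ^ 2) / τ ^ 2 := by
      field_simp
    rwa [e, le_div_iff₀ (by positivity)] at h
  · intro y hy
    have h1 := hs _ (right_ne_zero_of_mul hy)
    rw [norm_smul, norm_inv, Real.norm_of_nonneg hμ.le, inv_mul_lt_iff₀ hμ] at h1
    linarith
  · simp only [abs_mul, mul_pow, integral_const_mul, abs_of_pos hα]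
    rw [sc fun x => |v x| ^ 3, ← hτ3]
    field_simp

theorem sobolev_of_test {Λ M r : ℝ} (hΛ : 0 < Λ) (hM : 0 ≤ M) (hr : 0 < r)
    (hT : ∀ u : E 6 → ℝ, ContDiff ℝ 1 u → (∀ y, u y ≠ 0 → ‖y‖ < r) → ∫ x, |u x| ^ 3 = 1 →
      Λ ≤ (∫ x, gsq u x) + M * ∫ x, u x ^ 2)
    (v : E 6 → ℝ) (hv : ContDiff ℝ 1 v) (hc : HasCompactSupport v) (τ : ℝ) (hτ : 0 ≤ τ)
    (h3 : τ ^ 3 ≤ ∫ x, |v x| ^ 3) : Λ * τ ^ 2 ≤ ∫ x, gsq v x := by
  have hA : 0 ≤ ∫ x, gsq v x := integral_nonneg fun x => gsq_nonneg _ _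
  rcases hτ.eq_or_lt with rfl | hτ0
  · simpa using hA
  have hW : 0 < ∫ x, |v x| ^ 3 := (pow_pos hτ0 3).trans_le h3
  set W := ∫ x, |v x| ^ 3 with hWdef
  have hσ : (W ^ ((3 : ℕ) : ℝ)⁻¹) ^ 3 = W := Real.rpow_inv_natCast_pow hW.le (by norm_num)
  have hσ0 : 0 < W ^ ((3 : ℕ) : ℝ)⁻¹ := Real.rpow_pos_of_pos hW _
  set σ := W ^ ((3 : ℕ) : ℝ)⁻¹
  have hle : τ ≤ σ := le_of_pow_le_pow_left₀ (n := 3) (by norm_num) hσ0.le (by rw [hσ]; exact h3)
  obtain ⟨R, hR0, hR⟩ := hc.isCompact.isBounded.subset_ball_lt 0 0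
  have hs : ∀ y, v y ≠ 0 → ‖y‖ < R := fun y hy =>
    mem_ball_zero_iff.1 (hR (subset_tsupport _ hy))
  have hN : 0 ≤ ∫ x, v x ^ 2 := integral_nonneg fun x => sq_nonneg _
  set N := ∫ x, v x ^ 2
  have h1 : Λ * τ ^ 2 ≤ Λ * σ ^ 2 :=
    mul_le_mul_of_nonneg_left (pow_le_pow_left₀ hτ hle 2) hΛ.le
  refine h1.trans (le_of_forall_pos_le_add fun ε hε => ?_)
  let μ := min (r / R) (min 1 (ε / (M * N + 1)))
  have hμ : 0 < μ := lt_min (by positivity) (lt_min one_pos (by positivity))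
  have a1 : μ ≤ r / R := min_le_left _ _
  have a2 : μ ≤ 1 := (min_le_right _ _).trans (min_le_left _ _)
  have a3 : μ ≤ ε / (M * N + 1) := (min_le_right _ _).trans (min_le_right _ _)
  have h := scaled_test hT hv hs hμ ((le_div_iff₀ hR0).1 a1) hσ0 hσ
  rw [le_div_iff₀ (by positivity)] at a3
  have : M * μ ^ 2 * N ≤ ε := by
    have : μ ^ 2 ≤ μ := by nlinarith
    have : M * N * μ ^ 2 ≤ M * N * μ := mul_le_mul_of_nonneg_left this (by positivity)
    nlinarith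
  linarith

end Pool.Agent.P.MP_80466e_an
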